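import Pool.Agent.Helper87.Mor.Multi

/-!
# The number of the solutions for several primes
-/

set_option autoImplicit false
set_option linter.unusedSectionVars false
set_option linter.unusedVariables false

namespace Pool.Agent.Helper87.Mor

open Finset
open Pool.Agent.Helper22.Morley (u)

/-- Cauchy-Schwarz for the fibres of a map. -/
theorem sq_card_le {α β : Type*} [DecidableEq α] [DecidableEq β] (E : Finset α) (C : Finset β)
    (c : α → β) (hc : ∀ a ∈ E, c a ∈ C) :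
    E.card ^ 2 ≤ C.card * ((E ×ˢ E).filter fun p => c p.1 = c p.2).card := by
  have h1 : E.card = ∑ y ∈ C, (E.filter fun a => c a = y).card :=
    card_eq_sum_card_fiberwise hc
  have h2 : ((E ×ˢ E).filter fun p => c p.1 = c p.2).card =
      ∑ y ∈ C, ((E.filter fun a => c a = y).card) ^ 2 := by
    rw [card_eq_sum_card_fiberwise (f := fun p : α × α => c p.1) (t := C)]
    · refine sum_congr rfl fun y _ => ?_
      rw [pow_two, ← card_product]
      congr 1
      ext p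
      simp only [mem_filter, mem_product]
      constructor
      · rintro ⟨⟨⟨a1, a2⟩, a3⟩, a4⟩
        exact ⟨⟨a1, a4⟩, a2, a3 ▸ a4⟩
      · rintro ⟨⟨a1, a2⟩, a3, a4⟩
        exact ⟨⟨⟨a1, a3⟩, a2.trans a4.symm⟩, a2⟩
    · intro p hp
      rw [mem_coe, mem_filter, mem_product] at hp
      exact hc _ hp.1.1
  rw [h2, h1]
  exact sq_sum_le_card_mul_sum_sq

/-- the cell of `r` -/
def cel (J : Finset ℕ) (r : ℕ) : ℕ × ((q : ℕ) → q ∈ J → ℕ) :=
  (r / ∏ p ∈ J, p, fun q _ => (tv J q r % q) / K q)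

/-- the set of the cells -/
def Cel (J : Finset ℕ) (X : ℕ) : Finset (ℕ × ((q : ℕ) → q ∈ J → ℕ)) :=
  range (X / (∏ p ∈ J, p) + 1) ×ˢ J.pi fun q => range (q / K q + 1)

theorem card_Cel (J : Finset ℕ) (X : ℕ) :
    (Cel J X).card = (X / (∏ p ∈ J, p) + 1) * ∏ q ∈ J, (q / K q + 1) := by
  unfold Cel
  rw [card_product, card_range, card_pi]
  simp

section

variable {J : Finset ℕ} (hJ : ∀ q ∈ J, q.Prime ∧ 17 ≤ q)

include hJ

theorem cel_mem (X r : ℕ) (hr : r ∈ Ev J X) : cel J r ∈ Cel J X := by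
  unfold Ev at hr
  rw [mem_filter, mem_range] at hr
  unfold cel Cel
  rw [mem_product, mem_range, mem_pi]
  refine ⟨Nat.lt_succ_of_le (Nat.div_le_div_right hr.1.le), fun q hq => ?_⟩
  rw [mem_range]
  exact Nat.lt_succ_of_le (Nat.div_le_div_right (Nat.mod_lt _ (hJ q hq).1.pos).le)

theorem half_pairs (X : ℕ) (S : Finset (ℕ × ℕ))
    (hS : ∀ p ∈ S, p.1 ∈ Ev J X ∧ p.2 ∈ Ev J X ∧ cel J p.1 = cel J p.2 ∧ p.1 < p.2) :
    S.card ≤ ∑ g ∈ range (∏ p ∈ J, p), (Pv J X g).card := by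
  classical
  rw [← card_sigma]
  refine card_le_card_of_injOn (fun p => (⟨p.2 - p.1, p.1⟩ : Σ _ : ℕ, ℕ)) ?_ ?_
  · intro p hp
    rw [mem_coe] at hp
    obtain ⟨h1, h2, h3, h4⟩ := hS p hp
    unfold Ev at h1 h2
    rw [mem_filter, mem_range] at h1 h2
    unfold cel at h3
    rw [Prod.mk.injEq] at h3
    obtain ⟨h5, h6⟩ := h3
    have hg : p.2 - p.1 < ∏ p ∈ J, p := div_eq_lt (prodJ_pos hJ) h4.le h5
    rw [mem_coe, mem_sigma]
    refine ⟨mem_range.2 hg, ?_⟩
    unfold Pv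
    rw [mem_filter, mem_range]
    refine ⟨h1.1, fun q hq => ?_⟩
    have e : tv J q p.1 + av J q * (p.2 - p.1) = tv J q p.2 := by
      rw [← tv_add, Nat.add_sub_cancel' h4.le]
    simp only
    rw [e]
    have hp : Fact q.Prime := ⟨(hJ q hq).1⟩
    refine ⟨?_, ?_, ?_⟩
    · rw [h1.2 q hq]
      exact one_ne_zero
    · rw [h1.2 q hq, h2.2 q hq]
    · exact congrFun (congrFun h6 q) hq
  · intro p hp p' hp' e
    rw [mem_coe] at hp hp'
    obtain ⟨-, -, -, h4⟩ := hS p hp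
    obtain ⟨-, -, -, h4'⟩ := hS p' hp'
    simp only [Sigma.mk.injEq, heq_eq_eq] at e
    refine Prod.ext e.2 ?_
    omega

theorem pairs_le (X : ℕ) :
    ((Ev J X ×ˢ Ev J X).filter fun p => cel J p.1 = cel J p.2).card ≤
      (Ev J X).card + 2 * ∑ g ∈ range (∏ p ∈ J, p), (Pv J X g).card := by
  classical
  set S := (Ev J X ×ˢ Ev J X).filter fun p => cel J p.1 = cel J p.2 with hS
  have h1 : S ⊆ ((S.filter fun p => p.1 = p.2) ∪ (S.filter fun p => p.1 < p.2)) ∪
      (S.filter fun p => p.2 < p.1) := by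
    intro p hp
    rw [mem_union, mem_union]
    rcases lt_trichotomy p.1 p.2 with h | h | h
    · exact Or.inl (Or.inr (mem_filter.2 ⟨hp, h⟩))
    · exact Or.inl (Or.inl (mem_filter.2 ⟨hp, h⟩))
    · exact Or.inr (mem_filter.2 ⟨hp, h⟩)
  have h2 : (S.filter fun p => p.1 = p.2).card ≤ (Ev J X).card := by
    refine card_le_card_of_injOn (fun p => p.1) ?_ ?_
    · intro p hp
      rw [mem_coe, mem_filter, hS, mem_filter, mem_product] at hp
      exact hp.1.1.1
    · intro p hp p' hp' e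
      rw [mem_coe, mem_filter] at hp hp'
      exact Prod.ext e (hp.2.symm.trans (e.trans hp'.2))
  have h3 : (S.filter fun p => p.1 < p.2).card ≤
      ∑ g ∈ range (∏ p ∈ J, p), (Pv J X g).card := by
    refine half_pairs hJ X _ fun p hp => ?_
    rw [mem_filter, hS, mem_filter, mem_product] at hp
    exact ⟨hp.1.1.1, hp.1.1.2, hp.1.2, hp.2⟩
  have h4 : (S.filter fun p => p.2 < p.1).card ≤
      ∑ g ∈ range (∏ p ∈ J, p), (Pv J X g).card := by
    have h5 : (S.filter fun p => p.2 < p.1).card =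
        ((S.filter fun p => p.2 < p.1).image Prod.swap).card :=
      (card_image_of_injective _ Prod.swap_injective).symm
    rw [h5]
    refine half_pairs hJ X _ fun p hp => ?_
    rw [mem_image] at hp
    obtain ⟨p', hp', rfl⟩ := hp
    rw [mem_filter, hS, mem_filter, mem_product] at hp'
    exact ⟨hp'.1.1.2, hp'.1.1.1, hp'.1.2.symm, hp'.2⟩
  have h6 := card_le_card h1
  have h7 := card_union_le ((S.filter fun p => p.1 = p.2) ∪ (S.filter fun p => p.1 < p.2))
    (S.filter fun p => p.2 < p.1)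
  have h8 := card_union_le (S.filter fun p => p.1 = p.2) (S.filter fun p => p.1 < p.2)
  omega

theorem cells_le : ((∏ q ∈ J, (q / K q + 1) : ℕ) : ℝ) ≤
    2 ^ J.card * Real.sqrt ((∏ p ∈ J, p : ℕ) : ℝ) := by
  have h1 : ∀ q ∈ J, ((q / K q + 1 : ℕ) : ℝ) ≤ 2 * Real.sqrt q := by
    intro q hq
    have h2 : q / K q + 1 ≤ K q := by
      have : q / K q < K q := by
        rw [Nat.div_lt_iff_lt_mul (K_pos q)]
        exact Nat.lt_succ_sqrt q
      omega
    have h3 : (K q : ℝ) * K q ≤ 4 * q := by exact_mod_cast K_sq_le q (hJ q hq).2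
    have h4 : (K q : ℝ) ≤ 2 * Real.sqrt q := by
      have h5 : Real.sqrt ((K q : ℝ) * K q) ≤ Real.sqrt (4 * q) := Real.sqrt_le_sqrt h3
      rw [Real.sqrt_mul_self (Nat.cast_nonneg _), Real.sqrt_mul (by norm_num)] at h5
      have h6 : Real.sqrt 4 = 2 := by
        rw [show (4 : ℝ) = 2 ^ 2 by norm_num, Real.sqrt_sq (by norm_num)]
      rwa [h6] at h5
    exact le_trans (by exact_mod_cast h2) h4
  have h2 : Real.sqrt ((∏ p ∈ J, p : ℕ) : ℝ) = ∏ q ∈ J, Real.sqrt (q : ℝ) := by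
    rw [Nat.cast_prod]
    refine (Real.sqrt_eq_iff_mul_self_eq (prod_nonneg fun q _ => Nat.cast_nonneg q)
      (prod_nonneg fun q _ => Real.sqrt_nonneg _)).2 ?_
    rw [← prod_mul_distrib]
    exact prod_congr rfl fun q _ => (Real.mul_self_sqrt (Nat.cast_nonneg q)).symm
  rw [h2, Nat.cast_prod, ← prod_const, ← prod_mul_distrib]
  exact prod_le_prod (fun q _ => Nat.cast_nonneg _) h1

theorem Q_le_mod : ∏ p ∈ J, p ≤ ∏ q ∈ J, q ^ Mv J q :=
  prod_le_prod' fun q hq => Nat.le_self_pow (by have := Mv_pos J q; omega) q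

/-- The number of the solutions below `X` for all primes of `J`. -/
theorem card_Ev (X : ℕ) (hX : ∏ q ∈ J, q ^ Mv J q ≤ X) :
    ((Ev J X).card : ℝ) ^ 2 * Real.sqrt ((∏ p ∈ J, p : ℕ) : ℝ) ≤
      10 * 34 ^ J.card * (X : ℝ) ^ 2 := by
  classical
  have hQ0 := prodJ_pos hJ
  set Q := ∏ p ∈ J, p with hQ
  have hQX : Q ≤ X := (Q_le_mod hJ).trans hX
  have hQR : (0 : ℝ) < (Q : ℝ) := by exact_mod_cast hQ0
  have hX0 : (0 : ℝ) < (X : ℝ) := by
    have : 0 < X := by omega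
    exact_mod_cast this
  have h1 := sq_card_le (Ev J X) (Cel J X) (cel J) (cel_mem hJ X)
  rw [card_Cel] at h1
  have h2 := pairs_le hJ X
  have h3 : ((Ev J X).card : ℝ) ^ 2 ≤ (((X / Q : ℕ) + 1 : ℝ) * ((∏ q ∈ J, (q / K q + 1) : ℕ) : ℝ)) *
      ((Ev J X).card + 2 * ∑ g ∈ range Q, ((Pv J X g).card : ℝ)) := by
    exact_mod_cast h1.trans (Nat.mul_le_mul_left _ h2)
  have h4 := sum_Pv hJ X hX
  rw [← hQ] at h4
  have h5 : ((Ev J X).card : ℝ) ≤ X * 17 ^ J.card := by
    have h6 : ((Ev J X).card : ℝ) ≤ X := by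
      have := card_le_card (filter_subset (fun r => ∀ q ∈ J, u q (tv J q r) = 1) (range X))
      rw [card_range] at this
      exact_mod_cast this
    have h7 : (1 : ℝ) ≤ 17 ^ J.card := one_le_pow₀ (by norm_num)
    exact h6.trans (le_mul_of_one_le_right hX0.le h7)
  have h8 : ((X / Q : ℕ) + 1 : ℝ) ≤ 2 * X / Q := by
    have h9 : ((X / Q : ℕ) : ℝ) ≤ X / Q := Nat.cast_div_le
    have h10 : (1 : ℝ) ≤ X / Q := by
      rw [one_le_div hQR]
      exact_mod_cast hQX
    calc ((X / Q : ℕ) + 1 : ℝ) ≤ X / Q + X / Q := by linarith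
      _ = 2 * X / Q := by ring
  have h11 := cells_le hJ
  rw [← hQ] at h11
  set s := Real.sqrt (Q : ℝ) with hs
  have hss : s * s = Q := Real.mul_self_sqrt hQR.le
  have hs0 : 0 < s := Real.sqrt_pos.2 hQR
  have h12 : ((Ev J X).card : ℝ) ^ 2 ≤ ((2 * X / Q) * (2 ^ J.card * s)) *
      (5 * X * 17 ^ J.card) := by
    refine h3.trans (mul_le_mul (mul_le_mul h8 h11 (by positivity) (by positivity)) ?_
      (by positivity) (by positivity))
    linarith
  calc ((Ev J X).card : ℝ) ^ 2 * s ≤ (((2 * X / Q) * (2 ^ J.card * s)) *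
        (5 * X * 17 ^ J.card)) * s := mul_le_mul_of_nonneg_right h12 hs0.le
    _ = 10 * (2 ^ J.card * 17 ^ J.card) * (X : ℝ) ^ 2 * ((s * s) / Q) := by ring
    _ = 10 * 34 ^ J.card * (X : ℝ) ^ 2 := by
        rw [hss, div_self hQR.ne', mul_one, ← mul_pow]
        norm_num

end

end Pool.Agent.Helper87.Mor
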