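import Mathlib

/-!
# Sums of products over residues (Chinese remainder theorem)
-/

set_option autoImplicit false

namespace Pool.Agent.Helper87.Mor

open Finset

theorem prod_coprime (J : Finset ℕ) (m : ℕ → ℕ) (a : ℕ) (h : ∀ i ∈ J, (m a).Coprime (m i)) :
    (m a).Coprime (∏ i ∈ J, m i) := Nat.Coprime.prod_right h

/-- Sums of products of functions of the residues modulo coprime integers. -/
theorem crt_sum (J : Finset ℕ) (m : ℕ → ℕ) (hm : ∀ i ∈ J, 0 < m i)
    (hc : ∀ i ∈ J, ∀ j ∈ J, i ≠ j → (m i).Coprime (m j)) (f : ℕ → ℕ → ℝ)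
    (hf : ∀ i ∈ J, ∀ s, 0 ≤ f i s) :
    ∑ r ∈ range (∏ i ∈ J, m i), ∏ i ∈ J, f i (r % m i) ≤
      ∏ i ∈ J, ∑ s ∈ range (m i), f i s := by
  classical
  induction J using Finset.induction_on with
  | empty => simp
  | insert a J ha ih =>
    rw [prod_insert ha, prod_insert ha]
    have hma : 0 < m a := hm a (mem_insert_self _ _)
    have hmJ : ∀ i ∈ J, 0 < m i := fun i hi => hm i (mem_insert_of_mem hi)
    have ih' := ih hmJ (fun i hi j hj => hc i (mem_insert_of_mem hi) j (mem_insert_of_mem hj))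
      (fun i hi => hf i (mem_insert_of_mem hi))
    set D := ∏ i ∈ J, m i with hD
    have hD0 : 0 < D := prod_pos hmJ
    have hcop : (m a).Coprime D := prod_coprime J m a fun i hi =>
      hc a (mem_insert_self _ _) i (mem_insert_of_mem hi) (fun h => ha (h ▸ hi))
    have hdvd : ∀ i ∈ J, m i ∣ D := fun i hi => dvd_prod_of_mem m hi
    have hfa : ∀ s, 0 ≤ f a s := hf a (mem_insert_self _ _)
    have hfJ : ∀ i ∈ J, ∀ s, 0 ≤ f i s := fun i hi => hf i (mem_insert_of_mem hi)
    set g : ℕ × ℕ → ℝ := fun p => f a p.1 * ∏ i ∈ J, f i (p.2 % m i) with hg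
    have e1 : ∀ r, ∏ i ∈ insert a J, f i (r % m i) = g (r % m a, r % D) := by
      intro r
      rw [prod_insert ha, hg]
      simp only
      congr 1
      refine prod_congr rfl fun i hi => ?_
      rw [Nat.mod_mod_of_dvd _ (hdvd i hi)]
    have hinj : Set.InjOn (fun r : ℕ => (r % m a, r % D)) (range (m a * D) : Finset ℕ) := by
      intro r hr r' hr' h
      rw [mem_coe, mem_range] at hr hr'
      simp only [Prod.mk.injEq] at h
      have h1 : r ≡ r' [MOD m a * D] := (Nat.modEq_and_modEq_iff_modEq_mul hcop).1 ⟨h.1, h.2⟩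
      exact Nat.ModEq.eq_of_lt_of_lt h1 hr hr'
    calc ∑ r ∈ range (m a * D), ∏ i ∈ insert a J, f i (r % m i)
        = ∑ r ∈ range (m a * D), g ((fun r : ℕ => (r % m a, r % D)) r) :=
          sum_congr rfl fun r _ => e1 r
      _ = ∑ p ∈ (range (m a * D)).image (fun r : ℕ => (r % m a, r % D)), g p :=
          (sum_image hinj).symm
      _ ≤ ∑ p ∈ range (m a) ×ˢ range D, g p := by
          refine sum_le_sum_of_subset_of_nonneg ?_ ?_
          · intro p hp
            rw [mem_image] at hp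
            obtain ⟨r, _, rfl⟩ := hp
            rw [mem_product, mem_range, mem_range]
            exact ⟨Nat.mod_lt _ hma, Nat.mod_lt _ hD0⟩
          · intro p _ _
            exact mul_nonneg (hfa _) (prod_nonneg fun i hi => hfJ i hi _)
      _ = (∑ s ∈ range (m a), f a s) * ∑ r ∈ range D, ∏ i ∈ J, f i (r % m i) := by
          rw [sum_product, sum_mul_sum]
      _ ≤ (∑ s ∈ range (m a), f a s) * ∏ i ∈ J, ∑ s ∈ range (m i), f i s :=
          mul_le_mul_of_nonneg_left ih' (sum_nonneg fun s _ => hfa s)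

/-- Sums of periodic functions. -/
theorem per_sum (D X : ℕ) (hD : 0 < D) (h : ℕ → ℝ) (h0 : ∀ r, 0 ≤ h r)
    (hp : ∀ r, h (r + D) = h r) :
    ∑ r ∈ range X, h r ≤ ((X / D : ℕ) + 1 : ℝ) * ∑ r ∈ range D, h r := by
  have h1 : ∀ k : ℕ, ∑ r ∈ range (D * k), h r = k * ∑ r ∈ range D, h r := by
    intro k
    induction k with
    | zero => simp
    | succ k ih =>
      rw [Nat.mul_succ, sum_range_add, ih]
      have h2 : ∀ x ∈ range D, h (D * k + x) = h x := by
        intro x _
        have h3 : ∀ j : ℕ, h (x + D * j) = h x := by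
          intro j
          induction j with
          | zero => simp
          | succ j ihj => rw [Nat.mul_succ, ← add_assoc, hp, ihj]
        rw [add_comm, h3]
      rw [sum_congr rfl h2]
      push_cast
      ring
  have h2 := h1 (X / D + 1)
  have h3 : range X ⊆ range (D * (X / D + 1)) := by
    intro r hr
    rw [mem_range] at hr ⊢
    exact hr.trans (Nat.lt_mul_div_succ X hD)
  calc ∑ r ∈ range X, h r ≤ ∑ r ∈ range (D * (X / D + 1)), h r :=
        sum_le_sum_of_subset_of_nonneg h3 fun r _ _ => h0 r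
    _ = _ := by rw [h2]; push_cast; ring

/-- The number (weighted) of the integers below `X` with given residues. -/
theorem crt_count (J : Finset ℕ) (m : ℕ → ℕ) (hm : ∀ i ∈ J, 0 < m i)
    (hc : ∀ i ∈ J, ∀ j ∈ J, i ≠ j → (m i).Coprime (m j)) (f : ℕ → ℕ → ℝ)
    (hf : ∀ i ∈ J, ∀ s, 0 ≤ f i s) (X : ℕ) :
    ∑ r ∈ range X, ∏ i ∈ J, f i (r % m i) ≤
      ((X / (∏ i ∈ J, m i) : ℕ) + 1 : ℝ) * ∏ i ∈ J, ∑ s ∈ range (m i), f i s := by
  have hD : 0 < ∏ i ∈ J, m i := prod_pos hm
  refine (per_sum (∏ i ∈ J, m i) X hD (fun r => ∏ i ∈ J, f i (r % m i))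
    (fun r => prod_nonneg fun i hi => hf i hi _) ?_).trans ?_
  · intro r
    refine prod_congr rfl fun i hi => ?_
    obtain ⟨c, hc'⟩ := dvd_prod_of_mem m hi
    rw [hc', Nat.add_mul_mod_self_left]
  · exact mul_le_mul_of_nonneg_left (crt_sum J m hm hc f hf) (by positivity)

/-- Affine change of variables. -/
theorem affine_sum (m a b : ℕ) (hm : 0 < m) (ha : a.Coprime m) (f : ℕ → ℝ) (hf : ∀ s, 0 ≤ f s) :
    ∑ s ∈ range m, f ((a * s + b) % m) ≤ ∑ s ∈ range m, f s := by
  classical
  have hinj : Set.InjOn (fun s : ℕ => (a * s + b) % m) (range m : Finset ℕ) := by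
    intro s hs s' hs' h
    rw [mem_coe, mem_range] at hs hs'
    have h1 : a * s + b ≡ a * s' + b [MOD m] := h
    have h2 : a * s ≡ a * s' [MOD m] := Nat.ModEq.add_right_cancel' b h1
    have h3 : s ≡ s' [MOD m] := Nat.ModEq.cancel_left_of_coprime (by
      rw [Nat.gcd_comm]; exact ha) h2
    exact Nat.ModEq.eq_of_lt_of_lt h3 hs hs'
  calc ∑ s ∈ range m, f ((a * s + b) % m)
      = ∑ p ∈ (range m).image (fun s : ℕ => (a * s + b) % m), f p := (sum_image hinj).symm
    _ ≤ ∑ s ∈ range m, f s := by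
        refine sum_le_sum_of_subset_of_nonneg ?_ fun s _ _ => hf s
        intro p hp
        rw [mem_image] at hp
        obtain ⟨s, _, rfl⟩ := hp
        exact mem_range.2 (Nat.mod_lt _ hm)

end Pool.Agent.Helper87.Mor
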