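import Pool.Agent.Helper87.Mor.Ineq

set_option autoImplicit false

namespace Pool.Agent.Helper87.Mor

open Finset Filter Real
open Pool.Agent.Helper22.Morley (Sol)

lemma ev_small (M : ℝ) : ∀ᶠ l : ℝ in atTop, M ≤ Real.log l ∧ 5832 * Real.log l ≤ l ∧
    1680 * Real.log l ≤ l ^ (5 / 12 : ℝ) ∧ Real.log 12 + Real.log (1 + l) ≤ l / 100 ∧
    Real.log 20 ≤ l / 100 ∧ 1 ≤ l := by
  have h1 : ∀ᶠ l : ℝ in atTop, M ≤ Real.log l := Real.tendsto_log_atTop.eventually_ge_atTop M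
  have h2 : ∀ᶠ l : ℝ in atTop, 1 ≤ l := eventually_ge_atTop 1
  have h3 : ∀ᶠ l : ℝ in atTop, Real.log 20 ≤ l / 100 := by
    filter_upwards [eventually_ge_atTop (100 * Real.log 20)] with l hl
    linarith
  have h4 : ∀ᶠ l : ℝ in atTop, ‖Real.log l‖ ≤ (1 / 5832) * ‖l ^ (1 : ℝ)‖ :=
    (isLittleO_log_rpow_atTop (by norm_num : (0 : ℝ) < 1)).bound (by norm_num)
  have h5 : ∀ᶠ l : ℝ in atTop, ‖Real.log l‖ ≤ (1 / 1680) * ‖l ^ (5 / 12 : ℝ)‖ :=
    (isLittleO_log_rpow_atTop (by norm_num : (0 : ℝ) < 5 / 12)).bound (by norm_num)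
  have h6 : ∀ᶠ l : ℝ in atTop, Real.log 24 ≤ l / 200 := by
    filter_upwards [eventually_ge_atTop (200 * Real.log 24)] with l hl
    linarith
  filter_upwards [h1, h2, h3, h4, h5, h6] with l a1 a2 a3 a4 a5 a6
  have hl0 : 0 < l := by linarith
  have b4 : Real.log l ≤ (1 / 5832) * l := by
    rw [Real.rpow_one, Real.norm_of_nonneg hl0.le] at a4
    exact (le_abs_self _).trans a4
  have b5 : Real.log l ≤ (1 / 1680) * l ^ (5 / 12 : ℝ) := by
    rw [Real.norm_of_nonneg (Real.rpow_nonneg hl0.le _)] at a5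
    exact (le_abs_self _).trans a5
  refine ⟨a1, by linarith, by linarith, ?_, a3, a2⟩
  have e1 : Real.log (1 + l) ≤ Real.log (2 * l) := Real.log_le_log (by linarith) (by linarith)
  have e2 : Real.log (2 * l) = Real.log 2 + Real.log l := Real.log_mul (by norm_num) hl0.ne'
  have e3 : Real.log 24 = Real.log 12 + Real.log 2 := by
    rw [← Real.log_mul (by norm_num) (by norm_num)]
    norm_num
  linarith

lemma scales (l m L W : ℝ) (hl : 1 ≤ l) (hm : m = Real.log l) (hm3 : 3 ≤ m)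
    (h1 : 5832 * m ≤ l) (h2 : 1680 * m ≤ l ^ (5 / 12 : ℝ))
    (hL : L = l ^ (1 / 3 : ℝ) * m ^ (2 / 3 : ℝ))
    (hW : W = 1 / 30 * l ^ (2 / 3 : ℝ) * m ^ (1 / 3 : ℝ)) :
    W * L = l * m / 30 ∧ W * W = l * L / 900 ∧ m ≤ L ∧ L ≤ l ∧ 540 * W ≤ l ∧ m / 30 ≤ W ∧
      4 * (Real.exp (m / 4) * (10 + 4 * Real.log L)) ≤ W := by
  have hl0 : 0 < l := by linarith
  have hm0 : 0 < m := by linarith
  set a : ℝ := l ^ (1 / 3 : ℝ) with ha
  set b : ℝ := m ^ (1 / 3 : ℝ) with hb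
  have ha0 : 0 < a := Real.rpow_pos_of_pos hl0 _
  have hb0 : 0 < b := Real.rpow_pos_of_pos hm0 _
  have ha3 : a ^ 3 = l := by
    rw [ha, ← Real.rpow_natCast, ← Real.rpow_mul hl0.le]
    norm_num
  have hb3 : b ^ 3 = m := by
    rw [hb, ← Real.rpow_natCast, ← Real.rpow_mul hm0.le]
    norm_num
  have ha2 : l ^ (2 / 3 : ℝ) = a ^ 2 := by
    rw [ha, ← Real.rpow_natCast, ← Real.rpow_mul hl0.le]
    norm_num
  have hb2 : m ^ (2 / 3 : ℝ) = b ^ 2 := by
    rw [hb, ← Real.rpow_natCast, ← Real.rpow_mul hm0.le]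
    norm_num
  rw [hb2] at hL
  rw [ha2] at hW
  have hab : 18 * b ≤ a := by
    by_contra hlt
    push Not at hlt
    have : a ^ 3 < (18 * b) ^ 3 := pow_lt_pow_left₀ hlt ha0.le (by norm_num)
    rw [mul_pow, ha3, hb3] at this
    norm_num at this
    linarith
  have hb1 : 1 ≤ b := by
    by_contra hlt
    push Not at hlt
    have : b ^ 3 < 1 := pow_lt_one₀ hb0.le hlt (by norm_num)
    rw [hb3] at this
    linarith
  have hba : b ≤ a := by linarith
  have hmL : m ≤ L := by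
    rw [hL, ← hb3]
    have : b ^ 3 = b * b ^ 2 := by ring
    rw [this]
    exact mul_le_mul_of_nonneg_right hba (by positivity)
  have hLl : L ≤ l := by
    rw [hL, ← ha3]
    have : a ^ 3 = a * a ^ 2 := by ring
    rw [this]
    exact mul_le_mul_of_nonneg_left (pow_le_pow_left₀ hb0.le hba 2) ha0.le
  refine ⟨?_, ?_, hmL, hLl, ?_, ?_, ?_⟩
  · rw [hL, hW, ← ha3, ← hb3]
    ring
  · rw [hL, hW, ← ha3]
    ring
  · have : a ^ 2 * (18 * b) ≤ a ^ 2 * a := mul_le_mul_of_nonneg_left hab (by positivity)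
    rw [hW, ← ha3]
    nlinarith
  · have : b * b ^ 2 ≤ b * a ^ 2 :=
      mul_le_mul_of_nonneg_left (pow_le_pow_left₀ hb0.le hba 2) hb0.le
    rw [hW, ← hb3]
    nlinarith
  · have hL0 : 0 < L := by linarith
    have e1 : Real.log L ≤ m := by
      rw [hm]
      exact Real.log_le_log hL0 hLl
    have e2 : Real.exp (m / 4) = l ^ (1 / 4 : ℝ) := by
      rw [hm, Real.rpow_def_of_pos hl0]
      congr 1
      ring
    have e3 : l ^ (1 / 4 : ℝ) * l ^ (5 / 12 : ℝ) = a ^ 2 := by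
      rw [← ha2, ← Real.rpow_add hl0]
      norm_num
    have q0 : 0 < l ^ (1 / 4 : ℝ) := Real.rpow_pos_of_pos hl0 _
    have e4 : 10 + 4 * Real.log L ≤ 14 * m := by linarith
    calc 4 * (Real.exp (m / 4) * (10 + 4 * Real.log L))
        ≤ 4 * (l ^ (1 / 4 : ℝ) * (14 * m)) := by
          rw [e2]
          exact mul_le_mul_of_nonneg_left (mul_le_mul_of_nonneg_left e4 q0.le) (by norm_num)
      _ = 1 / 30 * (l ^ (1 / 4 : ℝ) * (1680 * m)) := by ring
      _ ≤ 1 / 30 * (l ^ (1 / 4 : ℝ) * l ^ (5 / 12 : ℝ)) := by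
          exact mul_le_mul_of_nonneg_left (mul_le_mul_of_nonneg_left h2 q0.le) (by norm_num)
      _ = 1 / 30 * a ^ 2 * 1 := by rw [e3, mul_one]
      _ ≤ 1 / 30 * a ^ 2 * b := mul_le_mul_of_nonneg_left hb1 (by positivity)
      _ = W := hW.symm

/-- For all large `x`, at most `x exp (-(1/30) (log x)^(2/3) (log log x)^(1/3))` odd composite
numbers `n ≤ x` satisfy the Morley congruence modulo `n`. -/
theorem count_bound : ∃ x₀ : ℕ, ∀ x : ℕ, x₀ ≤ x → ((Sol x).card : ℝ) ≤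
    x * Real.exp (-(1 / 30) * (Real.log x) ^ (2 / 3 : ℝ) *
      (Real.log (Real.log x)) ^ (1 / 3 : ℝ)) := by
  obtain ⟨C, hC, H⟩ := main_ineq
  have hev : ∀ᶠ x : ℕ in atTop, (max 3 (30 * Real.log (2 * C + 5)) ≤
      Real.log (Real.log (x : ℝ)) ∧ 5832 * Real.log (Real.log (x : ℝ)) ≤ Real.log (x : ℝ) ∧
      1680 * Real.log (Real.log (x : ℝ)) ≤ (Real.log (x : ℝ)) ^ (5 / 12 : ℝ) ∧
      Real.log 12 + Real.log (1 + Real.log (x : ℝ)) ≤ Real.log (x : ℝ) / 100 ∧
      Real.log 20 ≤ Real.log (x : ℝ) / 100 ∧ 1 ≤ Real.log (x : ℝ)) :=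
    (Real.tendsto_log_atTop.comp tendsto_natCast_atTop_atTop).eventually
      (ev_small (max 3 (30 * Real.log (2 * C + 5))))
  obtain ⟨x₀, hx₀⟩ := eventually_atTop.1 hev
  refine ⟨x₀, fun x hx => ?_⟩
  obtain ⟨a1, a2, a3, a4, a5, a6⟩ := hx₀ x hx
  set l : ℝ := Real.log (x : ℝ) with hl
  set m : ℝ := Real.log l with hm
  set L : ℝ := l ^ (1 / 3 : ℝ) * m ^ (2 / 3 : ℝ) with hL
  set W : ℝ := 1 / 30 * l ^ (2 / 3 : ℝ) * m ^ (1 / 3 : ℝ) with hW
  have hm3 : 3 ≤ m := (le_max_left _ _).trans a1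
  have hmC : 30 * Real.log (2 * C + 5) ≤ m := (le_max_right _ _).trans a1
  obtain ⟨s1, s2, s3, s4, s5, s6, s7⟩ := scales l m L W a6 hm hm3 a2 a3 hL hW
  have hxpos : 0 < (x : ℝ) := by
    by_contra hcon
    have hx0 : (x : ℝ) = 0 := le_antisymm (not_lt.1 hcon) (Nat.cast_nonneg x)
    rw [hl, hx0, Real.log_zero] at a6
    linarith
  have hx1 : 1 ≤ x := by exact_mod_cast hxpos
  have hxe : (x : ℝ) = Real.exp l := (Real.exp_log hxpos).symm
  have hl0 : 0 < l := by linarith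
  have hm0 : 0 < m := by linarith
  have hL0 : 0 < L := by linarith
  have hW0 : 0 < W := by linarith
  have hgoal : -(1 / 30) * l ^ (2 / 3 : ℝ) * m ^ (1 / 3 : ℝ) = -W := by rw [hW]; ring
  rw [hgoal]
  set v : ℕ := ⌈2 * W / L⌉₊ + 2 with hv
  have hv1 : ((v - 1 : ℕ) : ℝ) ≤ 2 * W / L + 2 := by
    have e : v - 1 = ⌈2 * W / L⌉₊ + 1 := by omega
    rw [e]
    push_cast
    have := Nat.ceil_lt_add_one (div_nonneg (by linarith : (0 : ℝ) ≤ 2 * W) hL0.le)
    linarith
  have hv2 : 2 * W / L ≤ ((v - 2 : ℕ) : ℝ) := by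
    have e : v - 2 = ⌈2 * W / L⌉₊ := by omega
    rw [e]
    exact Nat.le_ceil _
  have hWWL : W * (W / L) = l / 900 := by
    field_simp
    nlinarith
  have hmL1 : m / (4 * L) ≤ 1 / 2 := by
    rw [div_le_iff₀ (by positivity)]
    linarith
  have hmL0 : 0 ≤ m / (4 * L) := by positivity
  have hσ : (1 : ℝ) - (1 - m / (4 * L)) = m / (4 * L) := by ring
  have hcon : ∀ j : ℕ, Real.exp L ^ j ≤ Real.exp (16 * W) * Real.exp (4 * W) →
      (Real.exp (16 * W) * Real.exp (4 * W)) ^ (2 * j + 3) ≤ (x : ℝ) := by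
    intro j hj
    rw [← Real.exp_add, ← Real.exp_nat_mul] at hj
    rw [← Real.exp_add, ← Real.exp_nat_mul, hxe]
    rw [Real.exp_le_exp] at hj ⊢
    have hj' : (j : ℝ) ≤ 20 * (W / L) := by
      rw [← mul_div_assoc, le_div_iff₀ hL0]
      linarith
    push_cast
    have e1 : (2 * (j : ℝ) + 3) * (16 * W + 4 * W) ≤ (40 * (W / L) + 3) * (20 * W) := by
      have : 2 * (j : ℝ) + 3 ≤ 40 * (W / L) + 3 := by linarith
      have h3 : 16 * W + 4 * W = 20 * W := by ring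
      rw [h3]
      exact mul_le_mul_of_nonneg_right this (by positivity)
    have e2 : (40 * (W / L) + 3) * (20 * W) = 800 * (W * (W / L)) + 60 * W := by ring
    rw [e2, hWWL] at e1
    linarith
  have key := H x v (Real.exp L) (Real.exp (4 * W)) (Real.exp (l / 2)) (Real.exp (16 * W))
    (1 - m / (4 * L)) hx1 (by omega)
    (by
      have h1 : Real.exp 3 ≤ Real.exp L := Real.exp_le_exp.2 (by linarith)
      have h2 : (2.7182818283 : ℝ) ^ 3 ≤ Real.exp 1 ^ 3 :=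
        pow_le_pow_left₀ (by norm_num) Real.exp_one_gt_d9.le 3
      have h3 : Real.exp 1 ^ 3 = Real.exp 3 := by
        rw [← Real.exp_nat_mul]
        norm_num
      rw [h3] at h2
      have h4 : (17 : ℝ) ≤ 2.7182818283 ^ 3 := by norm_num
      linarith)
    (Real.one_le_exp (by positivity)) (Real.exp_pos _) (Real.one_le_exp (by positivity))
    (by linarith) (by linarith) hcon
  have hlogy : Real.log (Real.exp L) = L := Real.log_exp L
  -- the five terms
  have E : 0 < Real.exp (-(2 * W)) := Real.exp_pos _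
  have t1 : Real.exp (l / 2) * Real.exp (16 * W) ^ (v - 1) ≤ x * Real.exp (-(2 * W)) := by
    rw [← Real.exp_nat_mul, ← Real.exp_add, hxe, ← Real.exp_add]
    apply Real.exp_le_exp.2
    have h1 : ((v - 1 : ℕ) : ℝ) * (16 * W) ≤ (2 * W / L + 2) * (16 * W) :=
      mul_le_mul_of_nonneg_right hv1 (by positivity)
    have h2 : (2 * W / L + 2) * (16 * W) = 32 * (W * (W / L)) + 32 * W := by ring
    rw [h2, hWWL] at h1
    linarith
  have t2 : C * x * Real.exp (4 * W) ^ (-(1 / 2) : ℝ) = C * (x * Real.exp (-(2 * W))) := by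
    rw [← Real.exp_mul]
    have : 4 * W * -(1 / 2) = -(2 * W) := by ring
    rw [this]
    ring
  have t3 : 12 * x * (x : ℝ) ^ (-(1 / 21) : ℝ) * (1 + l) ≤ x * Real.exp (-(2 * W)) := by
    have h1 : (x : ℝ) ^ (-(1 / 21) : ℝ) = Real.exp (-(l / 21)) := by
      rw [Real.rpow_def_of_pos hxpos, ← hl]
      congr 1
      ring
    have h2 : 12 * (1 + l) = Real.exp (Real.log 12 + Real.log (1 + l)) := by
      rw [Real.exp_add, Real.exp_log (by norm_num), Real.exp_log (by linarith)]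
    have h3 : 12 * x * (x : ℝ) ^ (-(1 / 21) : ℝ) * (1 + l) =
        x * (12 * (1 + l) * Real.exp (-(l / 21))) := by
      rw [h1]
      ring
    rw [h3, h2, ← Real.exp_add]
    refine mul_le_mul_of_nonneg_left (Real.exp_le_exp.2 ?_) hxpos.le
    linarith
  have t4 : 20 * (x : ℝ) ^ (2 / 3 : ℝ) ≤ x * Real.exp (-(2 * W)) := by
    have h1 : (x : ℝ) ^ (2 / 3 : ℝ) = x * Real.exp (-(l / 3)) := by
      rw [Real.rpow_def_of_pos hxpos, ← hl]
      conv_rhs => rw [hxe, ← Real.exp_add]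
      congr 1
      ring
    have h2 : (20 : ℝ) = Real.exp (Real.log 20) := (Real.exp_log (by norm_num)).symm
    have h3 : 20 * (x : ℝ) ^ (2 / 3 : ℝ) = x * (Real.exp (Real.log 20) * Real.exp (-(l / 3))) := by
      rw [h1, ← h2]
      ring
    rw [h3, ← Real.exp_add]
    refine mul_le_mul_of_nonneg_left (Real.exp_le_exp.2 ?_) hxpos.le
    linarith
  have t5 : x * Real.exp (l / 2) ^ (-(1 - (1 - m / (4 * L)))) *
      Real.exp (4 * (Real.exp L ^ (1 - (1 - m / (4 * L))) *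
        (10 + 4 * Real.log (Real.log (Real.exp L))))) ≤ x * Real.exp (-(2 * W)) := by
    rw [hσ, hlogy, ← Real.exp_mul, ← Real.exp_mul]
    have h1 : L * (m / (4 * L)) = m / 4 := by field_simp
    have h2 : l / 2 * -(m / (4 * L)) = -(15 / 4 * W) := by
      have : l * m = 30 * (W * L) := by linarith
      have h3 : l / 2 * -(m / (4 * L)) = -(l * m / (8 * L)) := by
        field_simp
        ring
      rw [h3, this]
      field_simp
      ring
    rw [h1, h2, mul_assoc, ← Real.exp_add]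
    refine mul_le_mul_of_nonneg_left (Real.exp_le_exp.2 ?_) hxpos.le
    linarith
  have t6 : x * (Real.exp L ^ (v - 2))⁻¹ ≤ x * Real.exp (-(2 * W)) := by
    rw [← Real.exp_nat_mul, ← Real.exp_neg]
    refine mul_le_mul_of_nonneg_left (Real.exp_le_exp.2 ?_) hxpos.le
    have h1 : 2 * W / L * L ≤ ((v - 2 : ℕ) : ℝ) * L := mul_le_mul_of_nonneg_right hv2 hL0.le
    rw [div_mul_cancel₀ _ hL0.ne'] at h1
    linarith
  have t7 : C * x * Real.exp (16 * W) ^ (-(1 / 8) : ℝ) = C * (x * Real.exp (-(2 * W))) := by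
    rw [← Real.exp_mul]
    have : 16 * W * -(1 / 8) = -(2 * W) := by ring
    rw [this]
    ring
  have hsum : ((Sol x).card : ℝ) ≤ (2 * C + 5) * (x * Real.exp (-(2 * W))) := by
    rw [t2, t7] at key
    have : (2 * C + 5) * (x * Real.exp (-(2 * W))) = x * Real.exp (-(2 * W)) +
        (C * (x * Real.exp (-(2 * W))) + x * Real.exp (-(2 * W)) + x * Real.exp (-(2 * W))) +
        x * Real.exp (-(2 * W)) + x * Real.exp (-(2 * W)) +
        C * (x * Real.exp (-(2 * W))) := by ring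
    rw [this]
    linarith
  refine hsum.trans ?_
  have h5 : 2 * C + 5 ≤ Real.exp W := by
    have hp : 0 < 2 * C + 5 := by linarith
    rw [← Real.log_le_iff_le_exp hp]
    linarith
  have h6 : Real.exp (-W) = Real.exp W * Real.exp (-(2 * W)) := by
    rw [← Real.exp_add]
    congr 1
    ring
  rw [h6]
  calc (2 * C + 5) * (x * Real.exp (-(2 * W))) ≤ Real.exp W * (x * Real.exp (-(2 * W))) :=
        mul_le_mul_of_nonneg_right h5 (by positivity)
    _ = x * (Real.exp W * Real.exp (-(2 * W))) := by ring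

end Pool.Agent.Helper87.Mor
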