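import Pool.Agent.Helper22.Morley.Bounds

/-!
# Solutions with a large prime factor (after `Helper22/Morley/Bounds.lean`)
-/

set_option autoImplicit false
set_option linter.unusedVariables false

namespace Pool.Agent.Helper87.Mor

open Finset
open Pool.Agent.Helper22.Morley (u Cong Sol mem_Sol u_cofactor Smooth card_Sol_A card_Sol_B
  card_Sol_small_cofactor)

open scoped Classical in
/-- The solutions with a large prime factor. -/
theorem large_prime (l : ℕ) (hl : 1 ≤ l) : ∃ C : ℝ, 0 ≤ C ∧ ∀ (x : ℕ) (y : ℝ), 1 ≤ x → 1 ≤ y →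
    (((Sol x).filter fun n => ∃ q : ℕ, q.Prime ∧ q ∣ n ∧ y < (q : ℝ)).card : ℝ) ≤
      C * x * y ^ (-1 + 2 / ((l : ℝ) + 1))
      + 12 * x * (x : ℝ) ^ (-(1 / (6 * (l : ℝ) + 3))) * (1 + Real.log x)
      + 20 * (x : ℝ) ^ (2 / 3 : ℝ) := by
  set e : ℝ := 1 / ((l : ℝ) + 1) with he
  have hl' : (1 : ℝ) ≤ l := by exact_mod_cast hl
  have he0 : 0 < e := by positivity
  have he2 : e ≤ 1 / 2 := by
    rw [he]
    apply one_div_le_one_div_of_le <;> linarith
  have hsum : Summable (fun n : ℕ => (n : ℝ) ^ (-(1 + e))) :=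
    Real.summable_nat_rpow.mpr (by linarith)
  set Z : ℝ := ∑' n : ℕ, (n : ℝ) ^ (-(1 + e)) with hZ
  have hZ0 : 0 ≤ Z := tsum_nonneg (fun n => by positivity)
  set C0 : ℝ := 2 * ((2 * l + 1) * 4 ^ l) with hC0
  have hC00 : 0 ≤ C0 := by positivity
  refine ⟨C0 * Z, by positivity, ?_⟩
  intro x y hx hy
  have hx1 : (1 : ℝ) ≤ x := by exact_mod_cast hx
  have hxpos : (0 : ℝ) < x := by linarith
  set B := ⌈(x : ℝ) ^ (1 / 3 : ℝ)⌉₊ with hB
  set A1 := (Icc 1 x).filter (fun q : ℕ => q.Prime ∧ q ≠ 2 ∧ y < (q : ℝ) ∧ q ^ (2 * l + 1) ≤ x) with hA1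
  set A2 := (Icc 1 x).filter (fun q : ℕ => q.Prime ∧ q ≠ 2 ∧ x < q ^ (2 * l + 1) ∧ B ≤ x / q) with hA2
  have hsub : ((Sol x).filter fun n => ∃ q : ℕ, q.Prime ∧ q ∣ n ∧ y < (q : ℝ)) ⊆
      (A1.biUnion (fun q => (Sol x).filter (fun n => q ∣ n)) ∪
      (A2.biUnion (fun q => (Sol x).filter (fun n => q ∣ n)) ∪
      (Sol x).filter (fun n => ∃ q m, q.Prime ∧ n = q * m ∧ m < B))) := by
    intro n hn0
    have hn := (mem_filter.1 hn0).1
    have hn' := mem_Sol.mp hn
    obtain ⟨⟨h1, hnx⟩, ho, h1', hnp, hc⟩ := hn'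
    · obtain ⟨q, hqp, hqn, hyq⟩ := (mem_filter.1 hn0).2
      have hqx : q ≤ x := (Nat.le_of_dvd (by omega) hqn).trans hnx
      have hq2 : q ≠ 2 := by
        rintro rfl
        have := Nat.odd_iff.mp ho
        omega
      by_cases hc1 : q ^ (2 * l + 1) ≤ x
      · apply mem_union_left
        rw [mem_biUnion]
        refine ⟨q, ?_, ?_⟩
        · rw [hA1, mem_filter, mem_Icc]
          exact ⟨⟨hqp.one_le, hqx⟩, hqp, hq2, hyq, hc1⟩
        · rw [mem_filter]; exact ⟨hn, hqn⟩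
      · apply mem_union_right
        by_cases hc2 : B ≤ x / q
        · apply mem_union_left
          rw [mem_biUnion]
          refine ⟨q, ?_, ?_⟩
          · rw [hA2, mem_filter, mem_Icc]
            exact ⟨⟨hqp.one_le, hqx⟩, hqp, hq2, by omega, hc2⟩
          · rw [mem_filter]; exact ⟨hn, hqn⟩
        · apply mem_union_right
          rw [mem_filter]
          obtain ⟨m, rfl⟩ := hqn
          refine ⟨hn, q, m, hqp, rfl, ?_⟩
          push Not at hc2
          refine lt_of_le_of_lt ?_ hc2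
          rw [Nat.le_div_iff_mul_le hqp.pos]; linarith
  have hcard : ((Sol x).filter fun n => ∃ q : ℕ, q.Prime ∧ q ∣ n ∧ y < (q : ℝ)).card ≤
      (∑ q ∈ A1, ((Sol x).filter (fun n => q ∣ n)).card
      + (∑ q ∈ A2, ((Sol x).filter (fun n => q ∣ n)).card + 5 * B ^ 2)) := by
    refine (card_le_card hsub).trans ?_
    refine (card_union_le _ _).trans ?_
    apply Nat.add_le_add card_biUnion_le
    refine (card_union_le _ _).trans ?_
    exact Nat.add_le_add card_biUnion_le (card_Sol_small_cofactor x B)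
  have hcard' : (((Sol x).filter fun n => ∃ q : ℕ, q.Prime ∧ q ∣ n ∧ y < (q : ℝ)).card : ℝ) ≤
      (∑ q ∈ A1, (((Sol x).filter (fun n => q ∣ n)).card : ℝ)
      + (∑ q ∈ A2, (((Sol x).filter (fun n => q ∣ n)).card : ℝ) + 5 * (B : ℝ) ^ 2)) := by
    exact_mod_cast hcard
  have hE1 : ∑ q ∈ A1, (((Sol x).filter (fun n => q ∣ n)).card : ℝ)
      ≤ C0 * Z * x * y ^ (-1 + 2 * e) := by
    calc ∑ q ∈ A1, (((Sol x).filter (fun n => q ∣ n)).card : ℝ)
        ≤ ∑ q ∈ A1, C0 * x * y ^ (-1 + 2 * e) * (q : ℝ) ^ (-(1 + e)) := by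
          apply sum_le_sum
          intro q hqA
          rw [hA1, mem_filter, mem_Icc] at hqA
          obtain ⟨_, hqp, hq2, hyq, hqx⟩ := hqA
          have : Fact q.Prime := ⟨hqp⟩
          have hqpos : (0 : ℝ) < q := by exact_mod_cast hqp.pos
          refine (card_Sol_A (q := q) hq2 l hl x hqx).trans ?_
          rw [← hC0, ← he]
          have e1 : (q : ℝ) ^ (-2 + e) = (q : ℝ) ^ (-1 + 2 * e) * (q : ℝ) ^ (-(1 + e)) := by
            rw [← Real.rpow_add hqpos]; congr 1; ring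
          have e2 : (q : ℝ) ^ (-1 + 2 * e) ≤ y ^ (-1 + 2 * e) := by
            apply Real.rpow_le_rpow_of_nonpos (by linarith) hyq.le (by linarith)
          rw [e1]
          calc C0 * x * ((q : ℝ) ^ (-1 + 2 * e) * (q : ℝ) ^ (-(1 + e)))
              ≤ C0 * x * (y ^ (-1 + 2 * e) * (q : ℝ) ^ (-(1 + e))) := by gcongr
            _ = _ := by ring
      _ = C0 * x * y ^ (-1 + 2 * e) * ∑ q ∈ A1, (q : ℝ) ^ (-(1 + e)) := by rw [mul_sum]
      _ ≤ C0 * x * y ^ (-1 + 2 * e) * Z := by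
          gcongr
          exact hsum.sum_le_tsum _ (fun n _ => by positivity)
      _ = _ := by ring
  have hE2 : ∑ q ∈ A2, (((Sol x).filter (fun n => q ∣ n)).card : ℝ)
      ≤ 12 * x * (x : ℝ) ^ (-(1 / (6 * (l : ℝ) + 3))) * (1 + Real.log x) := by
    set V : ℝ := (x : ℝ) ^ (1 / (2 * (l : ℝ) + 1)) with hV
    have hV1 : 1 ≤ V := Real.one_le_rpow hx1 (by positivity)
    have hVx : V ^ (-(1 / 3 : ℝ)) = (x : ℝ) ^ (-(1 / (6 * (l : ℝ) + 3))) := by
      rw [hV, ← Real.rpow_mul hxpos.le]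
      congr 1
      field_simp
      ring
    calc ∑ q ∈ A2, (((Sol x).filter (fun n => q ∣ n)).card : ℝ)
        ≤ ∑ q ∈ A2, 12 * x * V ^ (-(1 / 3 : ℝ)) * (1 / (q : ℝ)) := by
          apply sum_le_sum
          intro q hqA
          rw [hA2, mem_filter, mem_Icc] at hqA
          obtain ⟨_, hqp, hq2, hqx, hqB⟩ := hqA
          have : Fact q.Prime := ⟨hqp⟩
          have hqpos : (0 : ℝ) < q := by exact_mod_cast hqp.pos
          apply card_Sol_B (q := q) hq2 x V hV1
          · have : (x : ℝ) ≤ (q : ℝ) ^ (2 * l + 1) := by exact_mod_cast hqx.le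
            calc V ≤ ((q : ℝ) ^ (2 * l + 1)) ^ (1 / (2 * (l : ℝ) + 1)) := by
                  rw [hV]
                  exact Real.rpow_le_rpow hxpos.le this (by positivity)
              _ = q := by
                  rw [← Real.rpow_natCast, ← Real.rpow_mul hqpos.le]
                  have : ((2 * l + 1 : ℕ) : ℝ) * (1 / (2 * (l : ℝ) + 1)) = 1 := by
                    push_cast; field_simp
                  rw [this, Real.rpow_one]
          · calc V ≤ (x : ℝ) ^ (1 / 3 : ℝ) := by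
                  rw [hV]
                  apply Real.rpow_le_rpow_of_exponent_le hx1
                  apply one_div_le_one_div_of_le <;> linarith
              _ ≤ B := Nat.le_ceil _
              _ ≤ ((x / q : ℕ) : ℝ) := by exact_mod_cast hqB
      _ = 12 * x * V ^ (-(1 / 3 : ℝ)) * ∑ q ∈ A2, (1 / (q : ℝ)) := by rw [mul_sum]
      _ ≤ 12 * x * V ^ (-(1 / 3 : ℝ)) * (1 + Real.log x) := by
          gcongr
          calc ∑ q ∈ A2, (1 / (q : ℝ)) ≤ ∑ q ∈ Icc 1 x, (1 / (q : ℝ)) := by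
                apply sum_le_sum_of_subset_of_nonneg (filter_subset _ _)
                intro i _ _; positivity
            _ = ((harmonic x : ℚ) : ℝ) := by
                rw [harmonic_eq_sum_Icc]; push_cast
                apply sum_congr rfl
                intro i _; rw [one_div]
            _ ≤ 1 + Real.log x := harmonic_le_one_add_log x
      _ = _ := by rw [hVx]
  have hE3 : 5 * (B : ℝ) ^ 2 ≤ 20 * (x : ℝ) ^ (2 / 3 : ℝ) := by
    set b : ℝ := (x : ℝ) ^ (1 / 3 : ℝ) with hb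
    have hb1 : 1 ≤ b := Real.one_le_rpow hx1 (by norm_num)
    have hBb : (B : ℝ) ≤ 2 * b := by
      have := Nat.ceil_lt_add_one (show 0 ≤ b by linarith)
      rw [hB]; linarith
    have hb2 : (x : ℝ) ^ (2 / 3 : ℝ) = b ^ 2 := by
      rw [hb, ← Real.rpow_natCast, ← Real.rpow_mul hxpos.le]
      norm_num
    rw [hb2]
    have hB0 : (0 : ℝ) ≤ B := by positivity
    nlinarith
  have he' : (-1 : ℝ) + 2 / ((l : ℝ) + 1) = -1 + 2 * e := by rw [he]; ring
  rw [he']
  linarith

end Pool.Agent.Helper87.Mor
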