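import Pool.Agent.Helper87.Mor.Cells
import Pool.Agent.Helper22.Morley.Bounds

/-!
# Solutions divisible by several primes
-/

set_option autoImplicit false
set_option linter.unusedSectionVars false
set_option linter.unusedVariables false

namespace Pool.Agent.Helper87.Mor

open Finset
open Pool.Agent.Helper22.Morley (u Cong Sol mem_Sol u_cofactor Smooth)

section

variable {J : Finset ℕ} (hJ : ∀ q ∈ J, q.Prime ∧ 17 ≤ q)

include hJ

theorem av_odd {q : ℕ} (hq : q ∈ J) : Odd (av J q) := by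
  classical
  have h1 : av J q = ∏ p ∈ J.erase q, p := by
    unfold av
    rw [← mul_prod_erase J (fun p => p) hq, Nat.mul_div_cancel_left _ (hJ q hq).1.pos]
  rw [h1]
  refine prod_induction _ Odd (fun a b ha hb => ha.mul hb) odd_one fun p hp => ?_
  rw [mem_erase] at hp
  exact (hJ p hp.2).1.odd_of_ne_two (by have := (hJ p hp.2).2; omega)

open scoped Classical in
theorem card_Sol_Q (x : ℕ) :
    ((Sol x).filter fun n => (∏ p ∈ J, p) ∣ n).card ≤ (Ev J (x / ∏ p ∈ J, p)).card := by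
  have hQ0 := prodJ_pos hJ
  set Q := ∏ p ∈ J, p with hQ
  refine card_le_card_of_injOn (fun n => (n / Q - 1) / 2) ?_ ?_
  · intro n hn
    rw [mem_coe, mem_filter, mem_Sol] at hn
    obtain ⟨⟨⟨h1, hx⟩, ho, h1', hnp, hc⟩, m, rfl⟩ := hn
    have hm0 : m ≠ 0 := by
      rintro rfl
      simp at h1
    have hmo : Odd m := (Nat.odd_mul.1 ho).2
    rw [mem_coe]
    unfold Ev
    rw [mem_filter, mem_range]
    simp only
    rw [Nat.mul_div_cancel_left _ hQ0]
    refine ⟨?_, fun q hq => ?_⟩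
    · have hm : m ≤ x / Q := by
        rw [Nat.le_div_iff_mul_le hQ0, mul_comm]
        exact hx
      omega
    · have hqp : Fact q.Prime := ⟨(hJ q hq).1⟩
      have h2 : q ≠ 2 := by
        have := (hJ q hq).2
        omega
      have e1 : Q * m = q * (av J q * m) := by rw [hQ, ← av_mul hJ hq, mul_assoc]
      rw [e1] at ho hc
      have h3 := u_cofactor (q := q) h2 ho hc
      have e2 : (av J q * m - 1) / 2 = tv J q ((m - 1) / 2) := by
        unfold tv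
        obtain ⟨a, ha⟩ := av_odd hJ hq
        obtain ⟨b, hb⟩ := hmo
        have e3 : (m - 1) / 2 = b := by omega
        have e4 : (av J q - 1) / 2 = a := by omega
        rw [e3, e4, hb]
        have e5 : av J q * (2 * b + 1) - 1 = 2 * (av J q * b + a) := by
          have : av J q * (2 * b + 1) = 2 * (av J q * b) + av J q := by ring
          rw [this]
          omega
        rw [e5]
        omega
      rw [e2] at h3
      exact h3
  · intro n hn n' hn' h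
    rw [mem_coe, mem_filter, mem_Sol] at hn hn'
    obtain ⟨⟨_, ho, _⟩, m, rfl⟩ := hn
    obtain ⟨⟨_, ho', _⟩, m', rfl⟩ := hn'
    simp only at h
    rw [Nat.mul_div_cancel_left _ hQ0, Nat.mul_div_cancel_left _ hQ0] at h
    have e1 := Nat.odd_iff.mp (Nat.odd_mul.1 ho).2
    have e2 := Nat.odd_iff.mp (Nat.odd_mul.1 ho').2
    have : m = m' := by omega
    rw [this]

open scoped Classical in
/-- The number of the solutions divisible by all primes of `J`. -/
theorem card_Sol_J (x : ℕ) (hx : (∏ p ∈ J, p) ^ (2 * J.card + 3) ≤ x) :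
    (((Sol x).filter fun n => (∏ p ∈ J, p) ∣ n).card : ℝ) ≤
      4 * 6 ^ J.card * x * ((∏ p ∈ J, p : ℕ) : ℝ) ^ (-(5 / 4) : ℝ) := by
  have hQ0 := prodJ_pos hJ
  have hm := mod_le hJ
  have hle := card_Sol_Q hJ x
  have hE := card_Ev hJ (x / ∏ p ∈ J, p) (by
    refine hm.trans ?_
    rw [Nat.le_div_iff_mul_le hQ0, ← pow_succ]
    exact hx)
  set Q := ∏ p ∈ J, p with hQ
  have hQR : (0 : ℝ) < (Q : ℝ) := by exact_mod_cast hQ0
  set N := ((Sol x).filter fun n => Q ∣ n).card with hN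
  set s := Real.sqrt (Q : ℝ) with hs
  have hs0 : 0 < s := Real.sqrt_pos.2 hQR
  have h1 : (N : ℝ) ^ 2 * s ≤ 10 * 34 ^ J.card * ((x : ℝ) / Q) ^ 2 := by
    have h2 : (N : ℝ) ≤ ((Ev J (x / Q)).card : ℝ) := by exact_mod_cast hle
    have h3 : (N : ℝ) ^ 2 ≤ ((Ev J (x / Q)).card : ℝ) ^ 2 :=
      pow_le_pow_left₀ (Nat.cast_nonneg _) h2 2
    have h4 : (((x / Q : ℕ)) : ℝ) ≤ (x : ℝ) / Q := Nat.cast_div_le
    have h5 : (((x / Q : ℕ)) : ℝ) ^ 2 ≤ ((x : ℝ) / Q) ^ 2 :=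
      pow_le_pow_left₀ (Nat.cast_nonneg _) h4 2
    calc (N : ℝ) ^ 2 * s ≤ ((Ev J (x / Q)).card : ℝ) ^ 2 * s :=
          mul_le_mul_of_nonneg_right h3 hs0.le
      _ ≤ 10 * 34 ^ J.card * (((x / Q : ℕ)) : ℝ) ^ 2 := hE
      _ ≤ _ := mul_le_mul_of_nonneg_left h5 (by positivity)
  have h6 : ((Q : ℝ) ^ (-(5 / 4) : ℝ)) ^ 2 * (s * (Q : ℝ) ^ 2) = 1 := by
    rw [hs, Real.sqrt_eq_rpow, ← Real.rpow_natCast, ← Real.rpow_natCast, ← Real.rpow_mul hQR.le,
      ← Real.rpow_add hQR, ← Real.rpow_add hQR]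
    norm_num
  have h7 : (N : ℝ) ^ 2 ≤ (4 * 6 ^ J.card * x * (Q : ℝ) ^ (-(5 / 4) : ℝ)) ^ 2 := by
    set z := (Q : ℝ) ^ (-(5 / 4) : ℝ) with hz
    have hz0 : 0 < z := Real.rpow_pos_of_pos hQR _
    have h8 : (N : ℝ) ^ 2 * (s * (Q : ℝ) ^ 2) ≤ 10 * 34 ^ J.card * (x : ℝ) ^ 2 := by
      have h9 : ((x : ℝ) / Q) ^ 2 * (Q : ℝ) ^ 2 = (x : ℝ) ^ 2 := by
        rw [← mul_pow, div_mul_cancel₀ _ hQR.ne']
      calc (N : ℝ) ^ 2 * (s * (Q : ℝ) ^ 2) = (N : ℝ) ^ 2 * s * (Q : ℝ) ^ 2 := by ring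
        _ ≤ 10 * 34 ^ J.card * ((x : ℝ) / Q) ^ 2 * (Q : ℝ) ^ 2 :=
            mul_le_mul_of_nonneg_right h1 (by positivity)
        _ = _ := by rw [mul_assoc, h9]
    have h10 : (10 : ℝ) * 34 ^ J.card ≤ 16 * 36 ^ J.card :=
      mul_le_mul (by norm_num) (pow_le_pow_left₀ (by norm_num) (by norm_num) _) (by positivity)
        (by norm_num)
    have h11 : (36 : ℝ) ^ J.card = (6 ^ J.card) ^ 2 := by
      rw [← pow_mul, mul_comm, pow_mul]
      norm_num
    calc (N : ℝ) ^ 2 = (N : ℝ) ^ 2 * (z ^ 2 * (s * (Q : ℝ) ^ 2)) := by rw [h6, mul_one]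
      _ = ((N : ℝ) ^ 2 * (s * (Q : ℝ) ^ 2)) * z ^ 2 := by ring
      _ ≤ (10 * 34 ^ J.card * (x : ℝ) ^ 2) * z ^ 2 :=
          mul_le_mul_of_nonneg_right h8 (by positivity)
      _ ≤ (16 * 36 ^ J.card * (x : ℝ) ^ 2) * z ^ 2 := by
          refine mul_le_mul_of_nonneg_right ?_ (by positivity)
          exact mul_le_mul_of_nonneg_right h10 (by positivity)
      _ = _ := by rw [h11]; ring
  exact (pow_le_pow_iff_left₀ (Nat.cast_nonneg _) (by positivity) two_ne_zero).1 h7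

end

end Pool.Agent.Helper87.Mor
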