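import Pool.Agent.Helper87.Mor.SmoothPart
import Pool.Agent.Helper87.Mor.SolQ
import Pool.Agent.Helper87.Mor.Large

/-!
# The main inequality
-/

set_option autoImplicit false
set_option linter.unusedVariables false

namespace Pool.Agent.Helper87.Mor

open Finset
open Pool.Agent.Helper22.Morley (u Cong Sol mem_Sol Smooth)

/-- A subset with product in a given range. -/
theorem subset_prod (P : Finset ℕ) (Y T : ℝ) (hY : 1 ≤ Y) (hT : 1 ≤ T)
    (hP : ∀ p ∈ P, (p : ℝ) ≤ Y) (h : T ≤ ((∏ p ∈ P, p : ℕ) : ℝ)) :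
    ∃ J ⊆ P, T ≤ ((∏ p ∈ J, p : ℕ) : ℝ) ∧ ((∏ p ∈ J, p : ℕ) : ℝ) ≤ T * Y := by
  classical
  induction P using Finset.induction_on with
  | empty =>
    refine ⟨∅, Subset.refl _, h, ?_⟩
    rw [prod_empty, Nat.cast_one]
    nlinarith
  | insert a P ha ih =>
    by_cases hT' : T ≤ ((∏ p ∈ P, p : ℕ) : ℝ)
    · obtain ⟨J, hJ, h1⟩ := ih (fun p hp => hP p (mem_insert_of_mem hp)) hT'
      exact ⟨J, hJ.trans (subset_insert _ _), h1⟩
    · push Not at hT'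
      refine ⟨insert a P, Subset.refl _, h, ?_⟩
      rw [prod_insert ha, Nat.cast_mul, mul_comm]
      exact mul_le_mul hT'.le (hP a (mem_insert_self _ _)) (Nat.cast_nonneg _) (by linarith)

/-- The structure of the remaining integers. -/
theorem classify (x : ℕ) (y Y z T : ℝ) (v n : ℕ) (hn : 1 ≤ n) (hnx : n ≤ x) (hv : 2 ≤ v)
    (hz : 0 < z) (hY : 1 ≤ Y) (hT : 1 ≤ T)
    (h1 : ∀ p : ℕ, p.Prime → p ∣ n → (p : ℝ) ≤ Y)
    (h2 : ∀ S ∈ Smooth x y, S ∣ n → (S : ℝ) ≤ z)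
    (h3 : ∀ p : ℕ, p.Prime → y < (p : ℝ) → ¬ p ^ v ∣ n)
    (h4 : z * T ^ (v - 1) ≤ n) :
    ∃ J ⊆ n.primeFactors.filter (fun p : ℕ => y < (p : ℝ)),
      T ≤ ((∏ p ∈ J, p : ℕ) : ℝ) ∧ ((∏ p ∈ J, p : ℕ) : ℝ) ≤ T * Y := by
  classical
  set P := n.primeFactors.filter (fun p : ℕ => y < (p : ℝ)) with hP
  have hn0 : n ≠ 0 := by omega
  refine subset_prod P Y T hY hT ?_ ?_
  · intro p hp
    rw [hP, mem_filter, Nat.mem_primeFactors] at hp
    exact h1 p hp.1.1 hp.1.2.1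
  · by_contra hlt
    push Not at hlt
    set S := ∏ p ∈ n.primeFactors.filter (fun p : ℕ => ¬ y < (p : ℝ)), p ^ n.factorization p
      with hS
    set R := ∏ p ∈ P, p ^ n.factorization p with hR
    have hSR : n = R * S := by
      have e := Nat.prod_factorization_pow_eq_self hn0
      rw [Finsupp.prod, Nat.support_factorization,
        ← prod_filter_mul_prod_filter_not n.primeFactors (fun p : ℕ => y < (p : ℝ))] at e
      exact e.symm
    have hR0 : 0 < R := prod_pos fun p hp => by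
      rw [hP, mem_filter, Nat.mem_primeFactors] at hp
      exact pow_pos hp.1.1.pos _
    have hS0 : 0 < S := prod_pos fun p hp => by
      rw [mem_filter, Nat.mem_primeFactors] at hp
      exact pow_pos hp.1.1.pos _
    have hSn : S ∣ n := ⟨R, by rw [mul_comm]; exact hSR⟩
    have hSm : S ∈ Smooth x y := by
      unfold Smooth
      rw [mem_filter, mem_Icc]
      refine ⟨⟨hS0, (Nat.le_of_dvd hn hSn).trans hnx⟩, fun p hp hpS => ?_⟩
      rw [hS] at hpS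
      obtain ⟨a, ha, hpa⟩ := (hp.prime.dvd_finset_prod_iff _).1 hpS
      have h5 := hp.dvd_of_dvd_pow hpa
      rw [mem_filter, Nat.mem_primeFactors] at ha
      have h6 := (Nat.prime_dvd_prime_iff_eq hp ha.1.1).1 h5
      rw [h6]
      exact not_lt.1 ha.2
    have hSz := h2 S hSm hSn
    have hRle : R ≤ (∏ p ∈ P, p) ^ (v - 1) := by
      rw [hR, ← prod_pow]
      refine prod_le_prod' fun p hp => ?_
      rw [hP, mem_filter, Nat.mem_primeFactors] at hp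
      refine Nat.pow_le_pow_right hp.1.1.pos ?_
      have h5 := h3 p hp.1.1 hp.2
      rw [hp.1.1.pow_dvd_iff_le_factorization hn0] at h5
      omega
    have hlt' : ((∏ p ∈ P, p : ℕ) : ℝ) ^ (v - 1) < T ^ (v - 1) :=
      pow_lt_pow_left₀ hlt (Nat.cast_nonneg _) (by omega)
    have h5 : (n : ℝ) ≤ z * ((∏ p ∈ P, p : ℕ) : ℝ) ^ (v - 1) := by
      have h6 : (R : ℝ) ≤ ((∏ p ∈ P, p : ℕ) : ℝ) ^ (v - 1) := by exact_mod_cast hRle
      calc (n : ℝ) = S * R := by rw [hSR]; push_cast; ring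
        _ ≤ z * ((∏ p ∈ P, p : ℕ) : ℝ) ^ (v - 1) :=
            mul_le_mul hSz h6 (Nat.cast_nonneg _) hz.le
    have h6 : z * ((∏ p ∈ P, p : ℕ) : ℝ) ^ (v - 1) < z * T ^ (v - 1) :=
      mul_lt_mul_of_pos_left hlt' hz
    linarith

open scoped Classical in
/-- The sum over the sets of primes. -/
theorem sum_sets : ∃ C : ℝ, 0 ≤ C ∧ ∀ (x : ℕ) (y T Y : ℝ), 17 ≤ y → 1 ≤ T → 1 ≤ Y →
    (∀ j : ℕ, y ^ j ≤ T * Y → (T * Y) ^ (2 * j + 3) ≤ x) →
    (((Sol x).filter fun n => ∃ J ⊆ n.primeFactors.filter (fun p : ℕ => y < (p : ℝ)),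
      T ≤ ((∏ p ∈ J, p : ℕ) : ℝ) ∧ ((∏ p ∈ J, p : ℕ) : ℝ) ≤ T * Y).card : ℝ) ≤
      C * x * T ^ (-(1 / 8) : ℝ) := by
  have hsum : Summable (fun n : ℕ => (n : ℝ) ^ (-(9 / 8) : ℝ)) :=
    Real.summable_nat_rpow.mpr (by norm_num)
  set Z : ℝ := ∑' n : ℕ, (n : ℝ) ^ (-(9 / 8) : ℝ) with hZ
  refine ⟨4 * Real.exp (6 * Z), by positivity, ?_⟩
  intro x y T Y hy hT hY hcon
  set P := (Icc 1 x).filter fun p : ℕ => p.Prime ∧ y < (p : ℝ) with hP
  set A := P.powerset.filter fun J => T ≤ ((∏ p ∈ J, p : ℕ) : ℝ) ∧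
    ((∏ p ∈ J, p : ℕ) : ℝ) ≤ T * Y with hA
  have hT0 : 0 < T := by linarith
  have hsub : ((Sol x).filter fun n => ∃ J ⊆ n.primeFactors.filter (fun p : ℕ => y < (p : ℝ)),
      T ≤ ((∏ p ∈ J, p : ℕ) : ℝ) ∧ ((∏ p ∈ J, p : ℕ) : ℝ) ≤ T * Y) ⊆
      A.biUnion fun J => (Sol x).filter fun n => (∏ p ∈ J, p) ∣ n := by
    intro n hn
    rw [mem_filter] at hn
    obtain ⟨hn1, J, hJ, h1, h2⟩ := hn
    have hn' := mem_Sol.1 hn1
    rw [mem_biUnion]
    refine ⟨J, ?_, ?_⟩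
    · rw [hA, mem_filter, mem_powerset]
      refine ⟨fun p hp => ?_, h1, h2⟩
      have h3 := hJ hp
      rw [mem_filter, Nat.mem_primeFactors] at h3
      rw [hP, mem_filter, mem_Icc]
      exact ⟨⟨h3.1.1.one_le, (Nat.le_of_dvd (by omega) h3.1.2.1).trans hn'.1.2⟩, h3.1.1, h3.2⟩
    · rw [mem_filter]
      refine ⟨hn1, ?_⟩
      apply Finset.prod_primes_dvd
      · intro p hp
        have h3 := hJ hp
        rw [mem_filter, Nat.mem_primeFactors] at h3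
        exact h3.1.1.prime
      · intro p hp
        have h3 := hJ hp
        rw [mem_filter, Nat.mem_primeFactors] at h3
        exact h3.1.2.1
  have h1 : (((Sol x).filter fun n => ∃ J ⊆ n.primeFactors.filter (fun p : ℕ => y < (p : ℝ)),
      T ≤ ((∏ p ∈ J, p : ℕ) : ℝ) ∧ ((∏ p ∈ J, p : ℕ) : ℝ) ≤ T * Y).card : ℝ) ≤
      ∑ J ∈ A, (((Sol x).filter fun n => (∏ p ∈ J, p) ∣ n).card : ℝ) := by
    exact_mod_cast (card_le_card hsub).trans card_biUnion_le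
  have h2 : ∀ J ∈ A, (((Sol x).filter fun n => (∏ p ∈ J, p) ∣ n).card : ℝ) ≤
      4 * x * T ^ (-(1 / 8) : ℝ) * ∏ q ∈ J, (6 * (q : ℝ) ^ (-(9 / 8) : ℝ)) := by
    intro J hJ
    rw [hA, mem_filter, mem_powerset] at hJ
    obtain ⟨hJ1, hJ2, hJ3⟩ := hJ
    have hJp : ∀ q ∈ J, q.Prime ∧ y < (q : ℝ) := fun q hq => by
      have := hJ1 hq
      rw [hP, mem_filter] at this
      exact this.2
    have hJ' : ∀ q ∈ J, q.Prime ∧ 17 ≤ q := fun q hq => by
      obtain ⟨a1, a2⟩ := hJp q hq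
      refine ⟨a1, ?_⟩
      have : (17 : ℝ) ≤ q := by linarith
      exact_mod_cast this
    set Q := ∏ p ∈ J, p with hQ
    have hQ0 : 0 < Q := prodJ_pos hJ'
    have hQR : (0 : ℝ) < (Q : ℝ) := by exact_mod_cast hQ0
    have hyj : y ^ J.card ≤ (Q : ℝ) := by
      rw [hQ, Nat.cast_prod, ← prod_const]
      exact prod_le_prod (fun q _ => by linarith) fun q hq => (hJp q hq).2.le
    have hcon' : Q ^ (2 * J.card + 3) ≤ x := by
      have h3 := hcon J.card (hyj.trans hJ3)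
      have h4 : (Q : ℝ) ^ (2 * J.card + 3) ≤ (T * Y) ^ (2 * J.card + 3) :=
        pow_le_pow_left₀ hQR.le hJ3 _
      exact_mod_cast h4.trans h3
    refine (card_Sol_J hJ' x hcon').trans ?_
    rw [← hQ]
    have e1 : (Q : ℝ) ^ (-(5 / 4) : ℝ) = (Q : ℝ) ^ (-(1 / 8) : ℝ) * (Q : ℝ) ^ (-(9 / 8) : ℝ) := by
      rw [← Real.rpow_add hQR]
      norm_num
    have e2 : (Q : ℝ) ^ (-(1 / 8) : ℝ) ≤ T ^ (-(1 / 8) : ℝ) :=
      Real.rpow_le_rpow_of_nonpos hT0 hJ2 (by norm_num)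
    have e3 : ∏ q ∈ J, (6 * (q : ℝ) ^ (-(9 / 8) : ℝ)) = 6 ^ J.card * (Q : ℝ) ^ (-(9 / 8) : ℝ) := by
      rw [prod_mul_distrib, prod_const, hQ, Nat.cast_prod,
        Real.finset_prod_rpow J _ (fun q _ => Nat.cast_nonneg q)]
    rw [e1, e3]
    calc 4 * 6 ^ J.card * (x : ℝ) * ((Q : ℝ) ^ (-(1 / 8) : ℝ) * (Q : ℝ) ^ (-(9 / 8) : ℝ))
        ≤ 4 * 6 ^ J.card * (x : ℝ) * (T ^ (-(1 / 8) : ℝ) * (Q : ℝ) ^ (-(9 / 8) : ℝ)) := by
          gcongr
      _ = _ := by ring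
  have h3 : ∑ J ∈ A, ∏ q ∈ J, (6 * (q : ℝ) ^ (-(9 / 8) : ℝ)) ≤ Real.exp (6 * Z) := by
    calc ∑ J ∈ A, ∏ q ∈ J, (6 * (q : ℝ) ^ (-(9 / 8) : ℝ))
        ≤ ∑ J ∈ P.powerset, ∏ q ∈ J, (6 * (q : ℝ) ^ (-(9 / 8) : ℝ)) :=
          sum_le_sum_of_subset_of_nonneg (filter_subset _ _) fun J _ _ =>
            prod_nonneg fun q _ => by positivity
      _ = ∏ q ∈ P, (1 + 6 * (q : ℝ) ^ (-(9 / 8) : ℝ)) := (prod_one_add _).symm
      _ ≤ ∏ q ∈ P, Real.exp (6 * (q : ℝ) ^ (-(9 / 8) : ℝ)) := by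
          refine prod_le_prod (fun q _ => by positivity) fun q _ => ?_
          rw [add_comm]
          exact Real.add_one_le_exp _
      _ = Real.exp (6 * ∑ q ∈ P, (q : ℝ) ^ (-(9 / 8) : ℝ)) := by
          rw [← Real.exp_sum, mul_sum]
      _ ≤ Real.exp (6 * Z) := by
          apply Real.exp_le_exp.2
          apply mul_le_mul_of_nonneg_left _ (by norm_num)
          exact hsum.sum_le_tsum _ (fun n _ => by positivity)
  calc _ ≤ ∑ J ∈ A, (((Sol x).filter fun n => (∏ p ∈ J, p) ∣ n).card : ℝ) := h1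
    _ ≤ ∑ J ∈ A, 4 * x * T ^ (-(1 / 8) : ℝ) * ∏ q ∈ J, (6 * (q : ℝ) ^ (-(9 / 8) : ℝ)) :=
        sum_le_sum h2
    _ = 4 * x * T ^ (-(1 / 8) : ℝ) * ∑ J ∈ A, ∏ q ∈ J, (6 * (q : ℝ) ^ (-(9 / 8) : ℝ)) := by
        rw [mul_sum]
    _ ≤ 4 * x * T ^ (-(1 / 8) : ℝ) * Real.exp (6 * Z) :=
        mul_le_mul_of_nonneg_left h3 (by positivity)
    _ = _ := by ring

open scoped Classical in
/-- The main inequality. -/
theorem main_ineq : ∃ C : ℝ, 0 ≤ C ∧ ∀ (x v : ℕ) (y Y z T σ : ℝ), 1 ≤ x → 2 ≤ v → 17 ≤ y →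
    1 ≤ Y → 0 < z → 1 ≤ T → 1 / 2 ≤ σ → σ ≤ 1 →
    (∀ j : ℕ, y ^ j ≤ T * Y → (T * Y) ^ (2 * j + 3) ≤ x) →
    ((Sol x).card : ℝ) ≤ z * T ^ (v - 1) + (C * x * Y ^ (-(1 / 2) : ℝ) +
      12 * x * (x : ℝ) ^ (-(1 / 21) : ℝ) * (1 + Real.log x) + 20 * (x : ℝ) ^ (2 / 3 : ℝ)) +
      x * z ^ (-(1 - σ)) * Real.exp (4 * (y ^ (1 - σ) * (10 + 4 * Real.log (Real.log y)))) +
      x * (y ^ (v - 2))⁻¹ + C * x * T ^ (-(1 / 8) : ℝ) := by
  obtain ⟨C1, hC1, hL⟩ := large_prime 3 (by norm_num)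
  obtain ⟨C2, hC2, hS⟩ := sum_sets
  refine ⟨max C1 C2, le_max_of_le_left hC1, ?_⟩
  intro x v y Y z T σ hx hv hy hY hz hT hσ hσ1 hcon
  set A1 := (Icc 1 x).filter fun n : ℕ => (n : ℝ) < z * T ^ (v - 1) with hA1
  set A2 := (Sol x).filter fun n => ∃ q : ℕ, q.Prime ∧ q ∣ n ∧ Y < (q : ℝ) with hA2
  set A3 := (Icc 1 x).filter fun n => ∃ S ∈ Smooth x y, S ∣ n ∧ z < (S : ℝ) with hA3
  set A4 := (Icc 1 x).filter fun n => ∃ q : ℕ, y < (q : ℝ) ∧ q ^ v ∣ n with hA4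
  set A5 := (Sol x).filter fun n => ∃ J ⊆ n.primeFactors.filter (fun p : ℕ => y < (p : ℝ)),
      T ≤ ((∏ p ∈ J, p : ℕ) : ℝ) ∧ ((∏ p ∈ J, p : ℕ) : ℝ) ≤ T * Y with hA5
  have hsub : Sol x ⊆ A1 ∪ (A2 ∪ (A3 ∪ (A4 ∪ A5))) := by
    intro n hn
    have hn' := mem_Sol.1 hn
    have hnI : n ∈ Icc 1 x := mem_Icc.2 hn'.1
    rw [mem_union, mem_union, mem_union, mem_union]
    by_cases h1 : n ∈ A1
    · exact Or.inl h1
    · right
      by_cases h2 : n ∈ A2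
      · exact Or.inl h2
      · right
        by_cases h3 : n ∈ A3
        · exact Or.inl h3
        · right
          by_cases h4 : n ∈ A4
          · exact Or.inl h4
          · right
            rw [hA1, mem_filter] at h1
            rw [hA2, mem_filter] at h2
            rw [hA3, mem_filter] at h3
            rw [hA4, mem_filter] at h4
            rw [hA5, mem_filter]
            refine ⟨hn, classify x y Y z T v n hn'.1.1 hn'.1.2 hv hz hY hT ?_ ?_ ?_ ?_⟩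
            · intro p hp hpn
              by_contra hlt
              push Not at hlt
              exact h2 ⟨hn, p, hp, hpn, hlt⟩
            · intro S hS hSn
              by_contra hlt
              push Not at hlt
              exact h3 ⟨hnI, S, hS, hSn, hlt⟩
            · intro p hp hyp hpv
              exact h4 ⟨hnI, p, hyp, hpv⟩
            · by_contra hlt
              push Not at hlt
              exact h1 ⟨hnI, hlt⟩
  have hcard : ((Sol x).card : ℝ) ≤ A1.card + (A2.card + (A3.card + (A4.card + A5.card))) := by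
    have := (card_le_card hsub).trans ((card_union_le _ _).trans (Nat.add_le_add_left
      ((card_union_le _ _).trans (Nat.add_le_add_left
      ((card_union_le _ _).trans (Nat.add_le_add_left (card_union_le _ _) _)) _)) _))
    exact_mod_cast this
  have hzT : 0 ≤ z * T ^ (v - 1) := by positivity
  have b1 : (A1.card : ℝ) ≤ z * T ^ (v - 1) := by
    have h1 : A1 ⊆ Icc 1 ⌊z * T ^ (v - 1)⌋₊ := by
      intro n hn
      rw [hA1, mem_filter, mem_Icc] at hn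
      exact mem_Icc.2 ⟨hn.1.1, Nat.le_floor hn.2.le⟩
    have h2 := card_le_card h1
    rw [Nat.card_Icc, Nat.add_sub_cancel] at h2
    have h3 : (A1.card : ℝ) ≤ (⌊z * T ^ (v - 1)⌋₊ : ℝ) := by exact_mod_cast h2
    exact h3.trans (Nat.floor_le hzT)
  have hx0 : (0 : ℝ) ≤ x := Nat.cast_nonneg x
  have b2 : (A2.card : ℝ) ≤ max C1 C2 * x * Y ^ (-(1 / 2) : ℝ) +
      12 * x * (x : ℝ) ^ (-(1 / 21) : ℝ) * (1 + Real.log x) + 20 * (x : ℝ) ^ (2 / 3 : ℝ) := by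
    have h1 := hL x Y hx hY
    have e1 : (-1 : ℝ) + 2 / (((3 : ℕ) : ℝ) + 1) = -(1 / 2) := by norm_num
    have e2 : -(1 / (6 * (((3 : ℕ) : ℝ)) + 3)) = (-(1 / 21) : ℝ) := by norm_num
    rw [e1, e2] at h1
    refine h1.trans ?_
    have h2 : C1 * x * Y ^ (-(1 / 2) : ℝ) ≤ max C1 C2 * x * Y ^ (-(1 / 2) : ℝ) := by
      have := le_max_left C1 C2
      gcongr
    linarith
  have b3 := smooth_divisor x y σ z (by linarith) hσ hσ1 hz
  have b4 := power_divisor x v y (by linarith) hv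
  have b5 : (A5.card : ℝ) ≤ max C1 C2 * x * T ^ (-(1 / 8) : ℝ) := by
    refine (hS x y T Y hy hT hY hcon).trans ?_
    have := le_max_right C1 C2
    gcongr
  linarith

end Pool.Agent.Helper87.Mor
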