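import Pool.Agent.Helper22.Morley.Count

/-!
# Pairs of arguments in the same block modulo one prime
-/

set_option autoImplicit false

namespace Pool.Agent.Helper87.Mor

open Finset
open Pool.Agent.Helper22.Morley (u u_add_mul u_pow_mul u_ne_zero_iff card_shift_le u_eq)

/-- block length -/
def K (q : ℕ) : ℕ := Nat.sqrt q + 1

theorem K_pos (q : ℕ) : 0 < K q := Nat.succ_pos _

theorem K_sq_le (q : ℕ) (hq : 17 ≤ q) : K q * K q ≤ 4 * q := by
  unfold K
  have h1 : Nat.sqrt q * Nat.sqrt q ≤ q := Nat.sqrt_le q
  have h2 : 4 ≤ Nat.sqrt q := by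
    rw [Nat.le_sqrt]
    omega
  nlinarith

theorem le_K_sq (q : ℕ) : q ≤ K q * K q := (Nat.lt_succ_sqrt q).le

theorem two_K_le (q : ℕ) (hq : 17 ≤ q) : 2 * K q ≤ q := by
  unfold K
  have h1 : Nat.sqrt q * Nat.sqrt q ≤ q := Nat.sqrt_le q
  have h2 : 4 ≤ Nat.sqrt q := by
    rw [Nat.le_sqrt]
    omega
  nlinarith

/-- weight of a shift -/
noncomputable def wt (q h : ℕ) : ℝ :=
  if h = 0 then 1 else if h < K q ∨ q - h < K q then 2 * K q / q else 0

theorem wt_nonneg (q h : ℕ) : 0 ≤ wt q h := by
  unfold wt
  split_ifs <;> positivity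

/-- the sum of the weights -/
theorem sum_wt (q : ℕ) (hq : 17 ≤ q) : ∑ h ∈ range q, wt q h ≤ 17 := by
  classical
  have hq0 : (0 : ℝ) < q := by
    have : 0 < q := by omega
    exact_mod_cast this
  have hk := K_sq_le q hq
  have hk' : (K q : ℝ) * K q ≤ 4 * q := by exact_mod_cast hk
  have h1 : ∀ h ∈ range q, wt q h ≤ (if h = 0 then 1 else 0) +
      ((if h < K q then (2 * K q / q : ℝ) else 0) +
        if q - h < K q then (2 * K q / q : ℝ) else 0) := by
    intro h _
    have hp : (0 : ℝ) ≤ 2 * K q / q := by positivity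
    unfold wt
    by_cases h0 : h = 0
    · rw [if_pos h0, if_pos h0]
      have a1 : (0 : ℝ) ≤ if h < K q then (2 * K q / q : ℝ) else 0 := by split_ifs <;> positivity
      have a2 : (0 : ℝ) ≤ if q - h < K q then (2 * K q / q : ℝ) else 0 := by
        split_ifs <;> positivity
      linarith
    · rw [if_neg h0, if_neg h0, zero_add]
      by_cases ha : h < K q <;> by_cases hb : q - h < K q
      · rw [if_pos (Or.inl ha), if_pos ha, if_pos hb]; linarith
      · rw [if_pos (Or.inl ha), if_pos ha, if_neg hb]; linarith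
      · rw [if_pos (Or.inr hb), if_neg ha, if_pos hb]; linarith
      · rw [if_neg (by tauto), if_neg ha, if_neg hb]; linarith
  refine (sum_le_sum h1).trans ?_
  rw [sum_add_distrib, sum_add_distrib]
  have e1 : ∑ h ∈ range q, (if h = 0 then (1 : ℝ) else 0) ≤ 1 := by
    rw [sum_ite_eq' (range q) 0 (fun _ => (1 : ℝ))]
    split_ifs <;> norm_num
  have e2 : ∑ h ∈ range q, (if h < K q then (2 * K q / q : ℝ) else 0) ≤ K q * (2 * K q / q) := by
    rw [← sum_filter, sum_const, nsmul_eq_mul]
    refine mul_le_mul_of_nonneg_right ?_ (by positivity)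
    have : ((range q).filter fun h => h < K q) ⊆ range (K q) := by
      intro h hh
      rw [mem_filter] at hh
      exact mem_range.2 hh.2
    have := card_le_card this
    rw [card_range] at this
    exact_mod_cast this
  have e3 : ∑ h ∈ range q, (if q - h < K q then (2 * K q / q : ℝ) else 0) ≤
      K q * (2 * K q / q) := by
    rw [← sum_filter, sum_const, nsmul_eq_mul]
    refine mul_le_mul_of_nonneg_right ?_ (by positivity)
    have : ((range q).filter fun h => q - h < K q).card ≤ (range (K q)).card := by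
      refine card_le_card_of_injOn (fun h => q - h) ?_ ?_
      · intro h hh
        rw [mem_coe, mem_filter] at hh
        exact mem_coe.2 (mem_range.2 hh.2)
      · intro h hh h' hh' e
        rw [mem_coe, mem_filter, mem_range] at hh hh'
        simp only at e
        omega
    rw [card_range] at this
    exact_mod_cast this
  have e4 : (K q : ℝ) * (2 * K q / q) ≤ 8 := by
    rw [← mul_div_assoc, div_le_iff₀ hq0]
    linarith
  linarith

section

variable {q : ℕ} [hq : Fact q.Prime]

/-- arguments `t < q ^ M` with `u (t + h) = u t ≠ 0`, last digits in the same block -/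
def B (q M h : ℕ) : Finset ℕ :=
  (range (q ^ M)).filter fun t => u q t ≠ 0 ∧ u q t = u q (t + h) ∧
    (t % q) / K q = ((t + h) % q) / K q

/-- reduction modulo `q ^ M` -/
theorem mod_mem_B (h2 : q ≠ 2) (M h t : ℕ) (hM : 1 ≤ M) (hh : h < q ^ (M - 1))
    (h1 : u q t ≠ 0) (h3 : u q t = u q (t + h)) (h4 : (t % q) / K q = ((t + h) % q) / K q) :
    t % q ^ M ∈ B q M h := by
  have hq0 : 0 < q := hq.out.pos
  have hqM : 0 < q ^ M := pow_pos hq0 _
  have hqM1 : 0 < q ^ (M - 1) := pow_pos hq0 _
  have hqMe : q ^ M = q ^ (M - 1) * q := by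
    rw [← pow_succ]
    congr 1
    omega
  have hq3 : 3 ≤ q := by
    have := hq.out.two_le
    omega
  set t0 := t % q ^ M with ht0
  set t1 := t / q ^ M with ht1
  have htt : t = t0 + q ^ M * t1 := (Nat.mod_add_div _ _).symm
  have ht0lt : t0 < q ^ M := Nat.mod_lt _ hqM
  have hu : u q t = u q t0 * u q t1 := by
    rw [htt, u_pow_mul M t0 t1 ht0lt]
  have hu0 : u q t0 ≠ 0 := by
    intro h0
    rw [hu, h0, zero_mul] at h1
    exact h1 rfl
  have hu1 : u q t1 ≠ 0 := by
    intro h0
    rw [hu, h0, mul_zero] at h1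
    exact h1 rfl
  -- the top digit is small
  have htop : 2 * (t0 / q ^ (M - 1)) < q := by
    have e : t0 = t0 % q ^ (M - 1) + q ^ (M - 1) * (t0 / q ^ (M - 1)) :=
      (Nat.mod_add_div _ _).symm
    have hd : t0 / q ^ (M - 1) < q := by
      rw [Nat.div_lt_iff_lt_mul hqM1, mul_comm, ← hqMe]
      exact ht0lt
    have h5 : u q (t0 / q ^ (M - 1)) ≠ 0 := by
      intro h0
      apply hu0
      rw [e, u_pow_mul (M - 1) _ _ (Nat.mod_lt _ hqM1), h0, mul_zero]
    exact (u_ne_zero_iff h2 hd).1 h5
  have hlt : t0 + h < q ^ M := by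
    have h5 : t0 < q ^ (M - 1) * (t0 / q ^ (M - 1) + 1) := Nat.lt_mul_div_succ _ hqM1
    have h6 : t0 / q ^ (M - 1) + 2 ≤ q := by omega
    calc t0 + h < q ^ (M - 1) * (t0 / q ^ (M - 1) + 1) + q ^ (M - 1) := by omega
      _ = q ^ (M - 1) * (t0 / q ^ (M - 1) + 2) := by ring
      _ ≤ q ^ (M - 1) * q := Nat.mul_le_mul_left _ h6
      _ = q ^ M := hqMe.symm
  have hth : t + h = (t0 + h) + q ^ M * t1 := by omega
  have hu' : u q (t + h) = u q (t0 + h) * u q t1 := by
    rw [hth, u_pow_mul M _ _ hlt]
  have hqd : q ∣ q ^ M := dvd_pow_self q (by omega)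
  have hm1 : t0 % q = t % q := Nat.mod_mod_of_dvd _ hqd
  have hm2 : (t0 + h) % q = (t + h) % q := by
    rw [Nat.add_mod, hm1, ← Nat.add_mod]
  unfold B
  rw [mem_filter, mem_range]
  refine ⟨ht0lt, hu0, ?_, ?_⟩
  · rw [hu, hu'] at h3
    exact mul_right_cancel₀ hu1 h3
  · rw [hm1, hm2, h4]

omit hq in
theorem div_eq_lt {a b k : ℕ} (hk : 0 < k) (hab : a ≤ b) (h : a / k = b / k) : b - a < k := by
  have h1 := Nat.div_add_mod a k
  have h2 := Nat.div_add_mod b k
  have h3 := Nat.mod_lt a hk
  have h4 := Nat.mod_lt b hk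
  rw [h] at h1
  omega

/-- the number of last digits for given other digits -/
theorem card_digit (h2 : q ≠ 2) (h17 : 17 ≤ q) (h T : ℕ) (hh : h % q ≠ 0) :
    ((range q).filter fun s => u q (s + q * T) ≠ 0 ∧ u q (s + q * T) = u q (s + q * T + h) ∧
      s / K q = ((s + q * T + h) % q) / K q).card ≤ 2 * K q := by
  classical
  have hq0 : 0 < q := hq.out.pos
  set h0 := h % q with hh0
  set h1 := h / q with hh1
  have hhe : h = h0 + q * h1 := (Nat.mod_add_div _ _).symm
  have h0lt : h0 < q := Nat.mod_lt _ hq0
  have h2K := two_K_le q h17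
  set A := (range q).filter fun s => u q (s + q * T) ≠ 0 ∧
    u q (s + q * T) = u q (s + q * T + h) ∧ s / K q = ((s + q * T + h) % q) / K q with hA
  have hsplit := card_filter_add_card_filter_not (s := A) (fun s => s + h0 < q)
  -- first part
  have hA1 : (A.filter fun s => s + h0 < q).card ≤ K q := by
    by_cases hne : (A.filter fun s => s + h0 < q).Nonempty
    · obtain ⟨s₁, hs₁⟩ := hne
      have key : ∀ s ∈ A.filter (fun s => s + h0 < q), h0 < K q ∧ u q s ≠ 0 ∧ u q T ≠ 0 ∧
          u q (T + h1) ≠ 0 ∧ u q s * u q T = u q (s + h0) * u q (T + h1) := by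
        intro s hs
        rw [mem_filter, hA, mem_filter, mem_range] at hs
        obtain ⟨⟨hsq, hs1, hs2, hs3⟩, hs4⟩ := hs
        have e1 : s + q * T + h = (s + h0) + q * (T + h1) := by rw [hhe]; ring
        rw [u_add_mul s T hsq] at hs1 hs2
        rw [e1, u_add_mul _ _ hs4] at hs2
        rw [e1, Nat.add_mul_mod_self_left, Nat.mod_eq_of_lt hs4] at hs3
        refine ⟨?_, left_ne_zero_of_mul hs1, right_ne_zero_of_mul hs1, ?_, hs2⟩
        · have := div_eq_lt (K_pos q) (Nat.le_add_right s h0) hs3
          omega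
        · rw [hs2] at hs1
          exact right_ne_zero_of_mul hs1
      obtain ⟨k1, -, k3, k4, -⟩ := key s₁ hs₁
      set ρ := u q T * (u q (T + h1))⁻¹ with hρ
      have hρ0 : ρ ≠ 0 := mul_ne_zero k3 (inv_ne_zero k4)
      have hsub : A.filter (fun s => s + h0 < q) ⊆
          (range q).filter (fun t => 2 * t < q ∧ u q (t + h0) = ρ * u q t) := by
        intro s hs
        obtain ⟨-, a2, -, a4, a5⟩ := key s hs
        rw [mem_filter, hA, mem_filter] at hs
        have hsq := mem_range.1 hs.1.1
        rw [mem_filter]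
        refine ⟨mem_range.2 hsq, (u_ne_zero_iff h2 hsq).1 a2, ?_⟩
        rw [hρ]
        field_simp
        rw [mul_comm (u q T)]
        rw [mul_comm] at a5
        rw [← a5]
        ring
      refine (card_le_card hsub).trans ((card_shift_le h2 ρ hρ0 h0 (by omega) (by omega)).trans ?_)
      omega
    · rw [not_nonempty_iff_eq_empty.1 hne]
      simp
  have hA2 : (A.filter fun s => ¬ s + h0 < q).card ≤ K q := by
    by_cases hne : (A.filter fun s => ¬ s + h0 < q).Nonempty
    · obtain ⟨s₁, hs₁⟩ := hne
      set d := q - h0 with hd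
      have hdpos : 1 ≤ d := by omega
      have key : ∀ s ∈ A.filter (fun s => ¬ s + h0 < q), d < K q ∧ d ≤ s ∧ u q (s - d) ≠ 0 ∧
          u q T ≠ 0 ∧ u q (T + h1 + 1) ≠ 0 ∧
          u q s * u q T = u q (s - d) * u q (T + h1 + 1) := by
        intro s hs
        rw [mem_filter, hA, mem_filter, mem_range] at hs
        obtain ⟨⟨hsq, hs1, hs2, hs3⟩, hs4⟩ := hs
        have hds : d ≤ s := by omega
        have hsd : s - d < q := by omega
        have e1 : s + q * T + h = (s - d) + q * (T + h1 + 1) := by
          rw [mul_add, mul_add, mul_one]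
          omega
        rw [u_add_mul s T hsq] at hs1 hs2
        rw [e1, u_add_mul _ _ hsd] at hs2
        rw [e1, Nat.add_mul_mod_self_left, Nat.mod_eq_of_lt hsd] at hs3
        have hne' := hs1
        rw [hs2] at hne'
        refine ⟨?_, hds, left_ne_zero_of_mul hne', right_ne_zero_of_mul hs1,
          right_ne_zero_of_mul hne', hs2⟩
        have := div_eq_lt (K_pos q) (Nat.sub_le s d) hs3.symm
        omega
      obtain ⟨k1, -, -, k3, k4, -⟩ := key s₁ hs₁
      set ρ := u q (T + h1 + 1) * (u q T)⁻¹ with hρ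
      have hρ0 : ρ ≠ 0 := mul_ne_zero k4 (inv_ne_zero k3)
      have hle : (A.filter fun s => ¬ s + h0 < q).card ≤
          ((range q).filter (fun t => 2 * t < q ∧ u q (t + d) = ρ * u q t)).card := by
        refine card_le_card_of_injOn (fun s => s - d) ?_ ?_
        · intro s hs
          rw [mem_coe] at hs
          obtain ⟨-, a1, a2, a3, -, a5⟩ := key s hs
          rw [mem_filter, hA, mem_filter] at hs
          have hsq := mem_range.1 hs.1.1
          rw [mem_coe, mem_filter]
          have hsd : s - d < q := by omega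
          refine ⟨mem_range.2 hsd, (u_ne_zero_iff h2 hsd).1 a2, ?_⟩
          simp only
          rw [Nat.sub_add_cancel a1, hρ]
          field_simp
          rw [a5]
          ring
        · intro s hs s' hs' e
          rw [mem_coe] at hs hs'
          obtain ⟨-, a1, -⟩ := key s hs
          obtain ⟨-, a1', -⟩ := key s' hs'
          simp only at e
          omega
      refine hle.trans ((card_shift_le h2 ρ hρ0 d hdpos (by omega)).trans ?_)
      omega
    · rw [not_nonempty_iff_eq_empty.1 hne]
      simp
  omega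

/-- the number of the elements of `B` -/
theorem card_B (h2 : q ≠ 2) (h17 : 17 ≤ q) (M h : ℕ) (hM : 1 ≤ M) :
    ((B q M h).card : ℝ) ≤ wt q (h % q) * (q : ℝ) ^ M := by
  classical
  have hq0 : 0 < q := hq.out.pos
  have hqR : (0 : ℝ) < q := by exact_mod_cast hq0
  have hqMe : q ^ M = q * q ^ (M - 1) := by
    rw [← pow_succ']
    congr 1
    omega
  unfold wt
  by_cases h0 : h % q = 0
  · rw [if_pos h0, one_mul]
    have := card_le_card (filter_subset (fun t => u q t ≠ 0 ∧ u q t = u q (t + h) ∧
      (t % q) / K q = ((t + h) % q) / K q) (range (q ^ M)))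
    rw [card_range] at this
    exact_mod_cast this
  · rw [if_neg h0]
    by_cases hc : h % q < K q ∨ q - h % q < K q
    · rw [if_pos hc]
      -- fibres over `t / q`
      have h1 : (B q M h).card ≤ ∑ T ∈ range (q ^ (M - 1)),
          ((range q).filter fun s => u q (s + q * T) ≠ 0 ∧
            u q (s + q * T) = u q (s + q * T + h) ∧
            s / K q = ((s + q * T + h) % q) / K q).card := by
        rw [← card_sigma]
        refine card_le_card_of_injOn (fun t => (⟨t / q, t % q⟩ : Σ _ : ℕ, ℕ)) ?_ ?_
        · intro t ht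
          rw [mem_coe] at ht
          unfold B at ht
          rw [mem_filter, mem_range] at ht
          obtain ⟨ht1, ht2, ht3, ht4⟩ := ht
          rw [mem_coe, mem_sigma, mem_range, mem_filter, mem_range]
          simp only
          rw [Nat.mod_add_div]
          refine ⟨?_, Nat.mod_lt _ hq0, ht2, ht3, ht4⟩
          rw [Nat.div_lt_iff_lt_mul hq0, mul_comm, ← hqMe]
          exact ht1
        · intro t _ t' _ e
          simp only [Sigma.mk.injEq, heq_eq_eq] at e
          rw [← Nat.mod_add_div t q, ← Nat.mod_add_div t' q, e.1, e.2]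
      have h3 : (B q M h).card ≤ q ^ (M - 1) * (2 * K q) := by
        refine h1.trans ((sum_le_sum fun T _ => card_digit h2 h17 h T h0).trans ?_)
        rw [sum_const, card_range, smul_eq_mul]
      have h4 : ((B q M h).card : ℝ) ≤ (q : ℝ) ^ (M - 1) * (2 * K q) := by exact_mod_cast h3
      refine h4.trans (le_of_eq ?_)
      have e : (q : ℝ) ^ M = q * (q : ℝ) ^ (M - 1) := by exact_mod_cast hqMe
      rw [e]
      field_simp
    · rw [if_neg hc, zero_mul]
      have : B q M h = ∅ := by
        rw [eq_empty_iff_forall_notMem]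
        intro t ht
        unfold B at ht
        rw [mem_filter] at ht
        obtain ⟨-, -, -, ht4⟩ := ht
        apply hc
        have hs : t % q < q := Nat.mod_lt _ hq0
        have hh : h % q < q := Nat.mod_lt _ hq0
        rw [Nat.add_mod] at ht4
        by_cases hlt : t % q + h % q < q
        · left
          rw [Nat.mod_eq_of_lt hlt] at ht4
          have := div_eq_lt (K_pos q) (Nat.le_add_right _ _) ht4
          omega
        · right
          have e : (t % q + h % q) % q = t % q + h % q - q := by
            rw [Nat.mod_eq_sub_mod (by omega), Nat.mod_eq_of_lt (by omega)]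
          rw [e] at ht4
          have := div_eq_lt (K_pos q) (show t % q + h % q - q ≤ t % q by omega) ht4.symm
          omega
      rw [this]
      simp

end

end Pool.Agent.Helper87.Mor
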