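import Pool.Agent.Helper87.Mor.Crt
import Pool.Agent.Helper87.Mor.Pair

/-!
# Several primes at once
-/

set_option autoImplicit false
set_option linter.unusedSectionVars false
set_option linter.unusedVariables false

namespace Pool.Agent.Helper87.Mor

open Finset
open Pool.Agent.Helper22.Morley (u)

/-- the cofactor of `q` in the product of `J` -/
def av (J : Finset ℕ) (q : ℕ) : ℕ := (∏ p ∈ J, p) / q

/-- the argument of `u q` -/
def tv (J : Finset ℕ) (q r : ℕ) : ℕ := av J q * r + (av J q - 1) / 2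

/-- the number of digits to base `q` -/
def Mv (J : Finset ℕ) (q : ℕ) : ℕ := Nat.clog q ((∏ p ∈ J, p) ^ 2) + 1

/-- the solutions below `X` -/
def Ev (J : Finset ℕ) (X : ℕ) : Finset ℕ :=
  (range X).filter fun r => ∀ q ∈ J, u q (tv J q r) = 1

/-- the pairs with difference `g` in the same cell -/
def Pv (J : Finset ℕ) (X g : ℕ) : Finset ℕ :=
  (range X).filter fun r => ∀ q ∈ J, u q (tv J q r) ≠ 0 ∧
    u q (tv J q r) = u q (tv J q r + av J q * g) ∧
    (tv J q r % q) / K q = ((tv J q r + av J q * g) % q) / K q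

theorem tv_add (J : Finset ℕ) (q r g : ℕ) : tv J q (r + g) = tv J q r + av J q * g := by
  unfold tv
  ring

theorem Mv_pos (J : Finset ℕ) (q : ℕ) : 1 ≤ Mv J q := Nat.succ_le_succ (Nat.zero_le _)

section

variable {J : Finset ℕ} (hJ : ∀ q ∈ J, q.Prime ∧ 17 ≤ q)

include hJ

theorem prodJ_pos : 0 < ∏ p ∈ J, p := prod_pos fun q hq => (hJ q hq).1.pos

theorem av_mul {q : ℕ} (hq : q ∈ J) : q * av J q = ∏ p ∈ J, p :=
  Nat.mul_div_cancel' (dvd_prod_of_mem _ hq)

theorem av_pos {q : ℕ} (hq : q ∈ J) : 0 < av J q := by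
  have h1 := av_mul hJ hq
  have h2 := prodJ_pos hJ
  rcases Nat.eq_zero_or_pos (av J q) with h | h
  · rw [h, mul_zero] at h1
    omega
  · exact h

theorem av_le {q : ℕ} (hq : q ∈ J) : av J q ≤ ∏ p ∈ J, p := Nat.div_le_self _ _

theorem av_coprime {q : ℕ} (hq : q ∈ J) : (av J q).Coprime q := by
  classical
  have h1 : av J q = ∏ p ∈ J.erase q, p := by
    unfold av
    rw [← mul_prod_erase J (fun p => p) hq, Nat.mul_div_cancel_left _ (hJ q hq).1.pos]
  rw [h1, Nat.coprime_prod_left_iff]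
  intro p hp
  rw [mem_erase] at hp
  exact (Nat.coprime_primes (hJ p hp.2).1 (hJ q hq).1).2 hp.1

theorem shift_lt {q g : ℕ} (hq : q ∈ J) (hg : g < ∏ p ∈ J, p) :
    av J q * g < q ^ (Mv J q - 1) := by
  have h1 : (∏ p ∈ J, p) ^ 2 ≤ q ^ Nat.clog q ((∏ p ∈ J, p) ^ 2) :=
    Nat.le_pow_clog (hJ q hq).1.one_lt _
  have h2 : Mv J q - 1 = Nat.clog q ((∏ p ∈ J, p) ^ 2) := rfl
  rw [h2]
  refine lt_of_lt_of_le ?_ h1
  rw [pow_two]
  exact Nat.mul_lt_mul_of_le_of_lt (av_le hJ hq) hg (prodJ_pos hJ)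

theorem pow_Mv_le {q : ℕ} (hq : q ∈ J) : q ^ Mv J q ≤ q ^ 2 * (∏ p ∈ J, p) ^ 2 := by
  have hqp := (hJ q hq).1
  by_cases h1 : 1 < (∏ p ∈ J, p) ^ 2
  · have h2 := Nat.pow_pred_clog_lt_self hqp.one_lt h1
    have h3 : 0 < Nat.clog q ((∏ p ∈ J, p) ^ 2) := Nat.clog_pos hqp.one_lt h1
    unfold Mv
    have h4 : Nat.clog q ((∏ p ∈ J, p) ^ 2) + 1 =
        (Nat.clog q ((∏ p ∈ J, p) ^ 2)).pred + 2 := by
      have := Nat.succ_pred_eq_of_pos h3
      omega
    rw [h4, pow_add, mul_comm]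
    exact Nat.mul_le_mul_left _ h2.le
  · exfalso
    have h2 : 1 < ∏ p ∈ J, p := by
      have h3 := Nat.le_of_dvd (prodJ_pos hJ) (dvd_prod_of_mem (fun p => p) hq)
      have := hqp.one_lt
      omega
    exact h1 (Nat.one_lt_pow (by norm_num) h2)

/-- the modulus -/
theorem mod_le : ∏ q ∈ J, q ^ Mv J q ≤ (∏ p ∈ J, p) ^ (2 * J.card + 2) := by
  calc ∏ q ∈ J, q ^ Mv J q ≤ ∏ q ∈ J, (q ^ 2 * (∏ p ∈ J, p) ^ 2) :=
        prod_le_prod' fun q hq => pow_Mv_le hJ hq
    _ = _ := by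
        rw [prod_mul_distrib, prod_const, prod_pow, ← pow_mul, ← pow_add]
        congr 1
        ring

/-- the number of the pairs with difference `g` -/
theorem card_Pv (X g : ℕ) (hg : g < ∏ p ∈ J, p) (hX : ∏ q ∈ J, q ^ Mv J q ≤ X) :
    ((Pv J X g).card : ℝ) ≤ 2 * X * ∏ q ∈ J, wt q ((av J q * g) % q) := by
  classical
  set D := ∏ q ∈ J, q ^ Mv J q with hD
  have hD0 : 0 < D := prod_pos fun q hq => pow_pos (hJ q hq).1.pos _
  set f : ℕ → ℕ → ℝ := fun q s =>
    if (av J q * s + (av J q - 1) / 2) % q ^ Mv J q ∈ B q (Mv J q) (av J q * g) then 1 else 0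
    with hf
  have h1 : ((Pv J X g).card : ℝ) ≤ ∑ r ∈ range X, ∏ q ∈ J, f q (r % q ^ Mv J q) := by
    rw [card_eq_sum_ones, Nat.cast_sum]
    unfold Pv
    rw [sum_filter]
    refine sum_le_sum fun r _ => ?_
    split_ifs with h
    · have h2 : ∀ q ∈ J, f q (r % q ^ Mv J q) = 1 := by
        intro q hq
        have : Fact q.Prime := ⟨(hJ q hq).1⟩
        obtain ⟨a1, a2, a3⟩ := h q hq
        have h3 := mod_mem_B (q := q) (by have := (hJ q hq).2; omega) (Mv J q) (av J q * g)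
          (tv J q r) (Mv_pos J q) (shift_lt hJ hq hg) a1 a2 a3
        rw [hf]
        simp only
        rw [if_pos]
        have e : (av J q * (r % q ^ Mv J q) + (av J q - 1) / 2) % q ^ Mv J q =
            tv J q r % q ^ Mv J q := by
          unfold tv
          exact Nat.ModEq.add_right _ (Nat.ModEq.mul_left _ (Nat.mod_modEq _ _))
        rw [e]
        exact h3
      rw [prod_congr rfl h2]
      simp
    · refine prod_nonneg fun q _ => ?_
      rw [hf]
      simp only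
      split_ifs <;> norm_num
  have h2 := crt_count J (fun q => q ^ Mv J q) (fun q hq => pow_pos (hJ q hq).1.pos _)
    (fun q hq q' hq' hne => Nat.Coprime.pow _ _
      ((Nat.coprime_primes (hJ q hq).1 (hJ q' hq').1).2 hne)) f
    (fun q _ s => by rw [hf]; simp only; split_ifs <;> norm_num) X
  have h3 : ∀ q ∈ J, ∑ s ∈ range (q ^ Mv J q), f q s ≤
      wt q ((av J q * g) % q) * (q : ℝ) ^ Mv J q := by
    intro q hq
    have : Fact q.Prime := ⟨(hJ q hq).1⟩
    have hqm : 0 < q ^ Mv J q := pow_pos (hJ q hq).1.pos _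
    have h4 := affine_sum (q ^ Mv J q) (av J q) ((av J q - 1) / 2) hqm
      (Nat.Coprime.pow_right _ (av_coprime hJ hq))
      (fun t => if t ∈ B q (Mv J q) (av J q * g) then (1 : ℝ) else 0)
      (fun t => by split_ifs <;> norm_num)
    refine h4.trans ?_
    rw [← sum_filter, sum_const, nsmul_eq_mul, mul_one]
    refine le_trans ?_ (card_B (q := q) (by have := (hJ q hq).2; omega) (hJ q hq).2 (Mv J q)
      (av J q * g) (Mv_pos J q))
    have : (range (q ^ Mv J q)).filter (fun t => t ∈ B q (Mv J q) (av J q * g)) ⊆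
        B q (Mv J q) (av J q * g) := by
      intro t ht
      rw [mem_filter] at ht
      exact ht.2
    exact_mod_cast card_le_card this
  have h5 : ∏ q ∈ J, ∑ s ∈ range (q ^ Mv J q), f q s ≤
      (∏ q ∈ J, wt q ((av J q * g) % q)) * D := by
    rw [hD, Nat.cast_prod, ← prod_mul_distrib]
    refine prod_le_prod (fun q _ => sum_nonneg fun s _ => ?_) fun q hq => ?_
    · rw [hf]
      simp only
      split_ifs <;> norm_num
    · rw [Nat.cast_pow]
      exact h3 q hq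
  have hW : 0 ≤ ∏ q ∈ J, wt q ((av J q * g) % q) := prod_nonneg fun q _ => wt_nonneg q _
  have hXD : ((X / D : ℕ) + 1 : ℝ) * D ≤ 2 * X := by
    have h6 : (X / D + 1) * D ≤ 2 * X := by
      have := Nat.div_mul_le_self X D
      rw [add_mul, one_mul]
      omega
    exact_mod_cast h6
  calc ((Pv J X g).card : ℝ) ≤ ((X / D : ℕ) + 1 : ℝ) *
        ∏ q ∈ J, ∑ s ∈ range (q ^ Mv J q), f q s := h1.trans h2
    _ ≤ ((X / D : ℕ) + 1 : ℝ) * ((∏ q ∈ J, wt q ((av J q * g) % q)) * D) :=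
        mul_le_mul_of_nonneg_left h5 (by positivity)
    _ = (((X / D : ℕ) + 1 : ℝ) * D) * ∏ q ∈ J, wt q ((av J q * g) % q) := by ring
    _ ≤ 2 * X * ∏ q ∈ J, wt q ((av J q * g) % q) := mul_le_mul_of_nonneg_right hXD hW

/-- the sum over all differences -/
theorem sum_Pv (X : ℕ) (hX : ∏ q ∈ J, q ^ Mv J q ≤ X) :
    ∑ g ∈ range (∏ p ∈ J, p), ((Pv J X g).card : ℝ) ≤ 2 * X * 17 ^ J.card := by
  classical
  have h1 : ∑ g ∈ range (∏ p ∈ J, p), ((Pv J X g).card : ℝ) ≤
      ∑ g ∈ range (∏ p ∈ J, p), 2 * X * ∏ q ∈ J, wt q ((av J q * g) % q) :=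
    sum_le_sum fun g hg => card_Pv hJ X g (mem_range.1 hg) hX
  refine h1.trans ?_
  rw [← mul_sum]
  refine mul_le_mul_of_nonneg_left ?_ (by positivity)
  have h2 : ∀ g, ∏ q ∈ J, wt q ((av J q * g) % q) =
      ∏ q ∈ J, (fun q s => wt q ((av J q * s + 0) % q)) q (g % q) := by
    intro g
    refine prod_congr rfl fun q _ => ?_
    simp only
    rw [add_zero, Nat.mul_mod_mod]
  have h3 := crt_sum J (fun q => q) (fun q hq => (hJ q hq).1.pos)
    (fun q hq q' hq' hne => (Nat.coprime_primes (hJ q hq).1 (hJ q' hq').1).2 hne)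
    (fun q s => wt q ((av J q * s + 0) % q)) (fun q _ s => wt_nonneg q _)
  calc ∑ g ∈ range (∏ p ∈ J, p), ∏ q ∈ J, wt q ((av J q * g) % q)
      = ∑ g ∈ range (∏ p ∈ J, p), ∏ q ∈ J, (fun q s => wt q ((av J q * s + 0) % q)) q (g % q) :=
        sum_congr rfl fun g _ => h2 g
    _ ≤ ∏ q ∈ J, ∑ s ∈ range q, wt q ((av J q * s + 0) % q) := h3
    _ ≤ ∏ _q ∈ J, (17 : ℝ) := by
        refine prod_le_prod (fun q _ => sum_nonneg fun s _ => wt_nonneg q _) fun q hq => ?_
        exact (affine_sum q (av J q) 0 (hJ q hq).1.pos (av_coprime hJ hq) (wt q)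
          (wt_nonneg q)).trans (sum_wt q (hJ q hq).2)
    _ = 17 ^ J.card := by rw [prod_const]

end

end Pool.Agent.Helper87.Mor
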