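import Pool.Agent.Helper22.Morley.Smooth

/-!
# Integers with a large smooth divisor, integers divisible by a large power
-/

set_option autoImplicit false
set_option linter.unusedVariables false

namespace Pool.Agent.Helper87.Mor

open Finset
open Pool.Agent.Helper22.Morley (Smooth powHom powHom_apply inv_one_sub_le sum_recip_primes)

theorem rankin_sum (x : ℕ) (y σ : ℝ) (hy : 2 ≤ y) (hσ : 1 / 2 ≤ σ) (hσ1 : σ ≤ 1) :
    ∑ n ∈ Smooth x y, (n : ℝ) ^ (-σ) ≤
      Real.exp (4 * (y ^ (1 - σ) * (10 + 4 * Real.log (Real.log y)))) := by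
  classical
  set N := ⌊y⌋₊ + 1 with hN
  have hlt : ∀ {p : ℕ}, p.Prime → (p : ℝ) ^ (-σ) ≤ 3 / 4 := by
    intro p hp
    have h1 : (2 : ℝ) ≤ p := by exact_mod_cast hp.two_le
    calc (p : ℝ) ^ (-σ) ≤ (2 : ℝ) ^ (-σ) :=
          Real.rpow_le_rpow_of_nonpos (by norm_num) h1 (by linarith)
      _ ≤ (2 : ℝ) ^ (-(1 / 2) : ℝ) :=
          Real.rpow_le_rpow_of_exponent_le (by norm_num) (by linarith)
      _ ≤ 3 / 4 := by
          rw [Real.rpow_neg (by norm_num), ← Real.sqrt_eq_rpow]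
          rw [inv_le_comm₀ (by positivity) (by norm_num)]
          apply Real.le_sqrt_of_sq_le
          norm_num
  have hnorm : ∀ {p : ℕ}, p.Prime → ‖powHom σ p‖ < 1 := by
    intro p hp
    rw [powHom_apply, Real.norm_of_nonneg (by positivity)]
    have := hlt hp
    linarith
  have h1 := (EulerProduct.summable_and_hasSum_smoothNumbers_prod_primesBelow_geometric
    (f := powHom σ) hnorm N).2
  have hmem : ∀ n ∈ Smooth x y, n ∈ N.smoothNumbers := by
    intro n hn
    unfold Smooth at hn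
    rw [mem_filter, mem_Icc] at hn
    rw [Nat.mem_smoothNumbers_iff_forall_le]
    refine ⟨by omega, fun p _ hp hpn => ?_⟩
    have := hn.2 p hp hpn
    rw [hN]
    exact Nat.lt_succ_of_le (Nat.le_floor this)
  have h2 := sum_le_hasSum ((Smooth x y).subtype (· ∈ N.smoothNumbers))
    (fun n _ => by
      rw [powHom_apply]
      positivity) h1
  have h3 : ∑ n ∈ (Smooth x y).subtype (· ∈ N.smoothNumbers), powHom σ n =
      ∑ n ∈ Smooth x y, (n : ℝ) ^ (-σ) :=
    Finset.sum_subtype_of_mem (fun n : ℕ => (n : ℝ) ^ (-σ)) hmem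
  rw [h3] at h2
  have h5 : ∏ p ∈ N.primesBelow, (1 - powHom σ p)⁻¹ ≤
      Real.exp (4 * (y ^ (1 - σ) * ∑ p ∈ N.primesBelow, 1 / (p : ℝ))) := by
    calc ∏ p ∈ N.primesBelow, (1 - powHom σ p)⁻¹
        ≤ ∏ p ∈ N.primesBelow, Real.exp (4 * (y ^ (1 - σ) * (1 / (p : ℝ)))) := by
          apply prod_le_prod
          · intro p hp
            have hpp := Nat.prime_of_mem_primesBelow hp
            have := hlt hpp
            rw [powHom_apply]
            apply inv_nonneg.mpr
            linarith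
          · intro p hp
            have hpp := Nat.prime_of_mem_primesBelow hp
            have hlt' := hlt hpp
            rw [powHom_apply]
            refine (inv_one_sub_le _ (by positivity) hlt').trans ?_
            apply Real.exp_le_exp.mpr
            apply mul_le_mul_of_nonneg_left _ (by norm_num)
            have hp0 : (0 : ℝ) < p := by exact_mod_cast hpp.pos
            have hpy : (p : ℝ) ≤ y := by
              have := Nat.lt_of_mem_primesBelow hp
              rw [hN] at this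
              exact (Nat.le_floor_iff (by linarith)).mp (Nat.lt_succ_iff.mp this)
            have e : (p : ℝ) ^ (-σ) = (p : ℝ) ^ (1 - σ) * (1 / p) := by
              rw [one_div, ← Real.rpow_neg_one (p : ℝ), ← Real.rpow_add hp0]
              congr 1; ring
            rw [e]
            gcongr
      _ = _ := by rw [← Real.exp_sum, mul_sum, mul_sum]
  refine h2.trans (h5.trans ?_)
  have h := sum_recip_primes y hy
  gcongr

open scoped Classical in
theorem card_dvd_le (x S : ℕ) (hS : 0 < S) :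
    (((Icc 1 x).filter fun n => S ∣ n).card : ℝ) ≤ (x : ℝ) / S := by
  have h1 : (Icc 1 x).filter (fun n => S ∣ n) = (Ioc 0 x).filter fun n => S ∣ n := by
    ext n
    simp only [mem_filter, mem_Icc, mem_Ioc]
    constructor <;> (rintro ⟨⟨h1, h2⟩, h3⟩; exact ⟨⟨by omega, h2⟩, h3⟩)
  rw [h1, Nat.Ioc_filter_dvd_card_eq_div]
  exact Nat.cast_div_le

open scoped Classical in
/-- Integers up to `x` with a `y`-smooth divisor larger than `z`. -/
theorem smooth_divisor (x : ℕ) (y σ z : ℝ) (hy : 2 ≤ y) (hσ : 1 / 2 ≤ σ) (hσ1 : σ ≤ 1)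
    (hz : 0 < z) :
    (((Icc 1 x).filter fun n => ∃ S ∈ Smooth x y, S ∣ n ∧ z < (S : ℝ)).card : ℝ) ≤
      x * z ^ (-(1 - σ)) * Real.exp (4 * (y ^ (1 - σ) * (10 + 4 * Real.log (Real.log y)))) := by
  have h1 : ((Icc 1 x).filter fun n => ∃ S ∈ Smooth x y, S ∣ n ∧ z < (S : ℝ)) ⊆
      ((Smooth x y).filter fun S : ℕ => z < (S : ℝ)).biUnion
        fun S => (Icc 1 x).filter fun n => S ∣ n := by
    intro n hn
    rw [mem_filter] at hn
    obtain ⟨h1, S, hS, hSn, hz⟩ := hn
    rw [mem_biUnion]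
    exact ⟨S, mem_filter.2 ⟨hS, hz⟩, mem_filter.2 ⟨h1, hSn⟩⟩
  have h2 : (((Icc 1 x).filter fun n => ∃ S ∈ Smooth x y, S ∣ n ∧ z < (S : ℝ)).card : ℝ) ≤
      ∑ S ∈ (Smooth x y).filter fun S : ℕ => z < (S : ℝ),
        (((Icc 1 x).filter fun n => S ∣ n).card : ℝ) := by
    exact_mod_cast (card_le_card h1).trans card_biUnion_le
  refine h2.trans ?_
  have h3 : ∀ S ∈ (Smooth x y).filter fun S : ℕ => z < (S : ℝ),
      (((Icc 1 x).filter fun n => S ∣ n).card : ℝ) ≤ x * z ^ (-(1 - σ)) * (S : ℝ) ^ (-σ) := by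
    intro S hS
    rw [mem_filter] at hS
    obtain ⟨hS1, hS2⟩ := hS
    have hS0 : 0 < S := by
      unfold Smooth at hS1
      rw [mem_filter, mem_Icc] at hS1
      exact hS1.1.1
    have hSR : (0 : ℝ) < S := by exact_mod_cast hS0
    refine (card_dvd_le x S hS0).trans ?_
    have e : (x : ℝ) / S = x * ((S : ℝ) ^ (-(1 - σ)) * (S : ℝ) ^ (-σ)) := by
      rw [← Real.rpow_add hSR, div_eq_mul_inv, ← Real.rpow_neg_one]
      congr 2
      ring
    rw [e, mul_assoc]
    refine mul_le_mul_of_nonneg_left ?_ (Nat.cast_nonneg _)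
    refine mul_le_mul_of_nonneg_right ?_ (by positivity)
    exact Real.rpow_le_rpow_of_nonpos hz hS2.le (by linarith)
  refine (sum_le_sum h3).trans ?_
  rw [← mul_sum]
  refine mul_le_mul_of_nonneg_left ?_ (by positivity)
  refine le_trans ?_ (rankin_sum x y σ hy hσ hσ1)
  exact sum_le_sum_of_subset_of_nonneg (filter_subset _ _) fun S _ _ => by positivity

open scoped Classical in
/-- Integers up to `x` divisible by the `v`-th power of an integer larger than `y`. -/
theorem power_divisor (x v : ℕ) (y : ℝ) (hy : 1 ≤ y) (hv : 2 ≤ v) :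
    (((Icc 1 x).filter fun n => ∃ q : ℕ, y < (q : ℝ) ∧ q ^ v ∣ n).card : ℝ) ≤
      x * (y ^ (v - 2))⁻¹ := by
  have h1 : ((Icc 1 x).filter fun n => ∃ q : ℕ, y < (q : ℝ) ∧ q ^ v ∣ n) ⊆
      ((Ioc 1 x).filter fun q : ℕ => y < (q : ℝ)).biUnion
        fun q => (Icc 1 x).filter fun n => q ^ v ∣ n := by
    intro n hn
    rw [mem_filter, mem_Icc] at hn
    obtain ⟨h1, q, hq, hqn⟩ := hn
    rw [mem_biUnion]
    have hq1 : 1 < q := by
      have : (1 : ℝ) < q := by linarith
      exact_mod_cast this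
    have hqx : q ≤ x := by
      have h2 : q ≤ q ^ v := Nat.le_self_pow (by omega) q
      have h3 := Nat.le_of_dvd (by omega) hqn
      omega
    exact ⟨q, mem_filter.2 ⟨mem_Ioc.2 ⟨hq1, hqx⟩, hq⟩,
      mem_filter.2 ⟨mem_Icc.2 h1, hqn⟩⟩
  have h2 : (((Icc 1 x).filter fun n => ∃ q : ℕ, y < (q : ℝ) ∧ q ^ v ∣ n).card : ℝ) ≤
      ∑ q ∈ (Ioc 1 x).filter fun q : ℕ => y < (q : ℝ),
        (((Icc 1 x).filter fun n => q ^ v ∣ n).card : ℝ) := by
    exact_mod_cast (card_le_card h1).trans card_biUnion_le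
  refine h2.trans ?_
  have h3 : ∀ q ∈ (Ioc 1 x).filter fun q : ℕ => y < (q : ℝ),
      (((Icc 1 x).filter fun n => q ^ v ∣ n).card : ℝ) ≤
        x * (y ^ (v - 2))⁻¹ * ((q : ℝ) ^ 2)⁻¹ := by
    intro q hq
    rw [mem_filter, mem_Ioc] at hq
    have hq0 : 0 < q := by omega
    have hqR : (0 : ℝ) < q := by exact_mod_cast hq0
    refine (card_dvd_le x (q ^ v) (pow_pos hq0 _)).trans ?_
    have e : ((q ^ v : ℕ) : ℝ) = (q : ℝ) ^ (v - 2) * (q : ℝ) ^ 2 := by
      rw [Nat.cast_pow, ← pow_add]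
      congr 1
      omega
    rw [e, div_eq_mul_inv, mul_inv, mul_assoc]
    refine mul_le_mul_of_nonneg_left ?_ (Nat.cast_nonneg _)
    refine mul_le_mul_of_nonneg_right ?_ (by positivity)
    exact inv_anti₀ (by positivity) (pow_le_pow_left₀ (by linarith) hq.2.le _)
  refine (sum_le_sum h3).trans ?_
  rw [← mul_sum]
  have h4 : ∑ q ∈ (Ioc 1 x).filter fun q : ℕ => y < (q : ℝ), ((q : ℝ) ^ 2)⁻¹ ≤ 1 := by
    refine (sum_le_sum_of_subset_of_nonneg (filter_subset _ _)
      fun q _ _ => by positivity).trans ?_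
    rcases Nat.lt_or_ge x 1 with hx | hx
    · rw [Ioc_eq_empty (by omega)]
      simp
    · have h5 := sum_Ioc_inv_sq_le_sub (α := ℝ) one_ne_zero hx
      rw [Nat.cast_one, inv_one] at h5
      have h6 : (0 : ℝ) ≤ (x : ℝ)⁻¹ := by positivity
      linarith
  calc (x : ℝ) * (y ^ (v - 2))⁻¹ * ∑ q ∈ (Ioc 1 x).filter fun q : ℕ => y < (q : ℝ),
        ((q : ℝ) ^ 2)⁻¹ ≤ x * (y ^ (v - 2))⁻¹ * 1 :=
        mul_le_mul_of_nonneg_left h4 (by positivity)
    _ = _ := mul_one _

end Pool.Agent.Helper87.Mor
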